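import Mathlib

set_option autoImplicit false

namespace Pool.Agent.Lib.BG7

open Subgroup

/-- Torsion-freeness. -/
def TF (G : Type) [Group G] : Prop := ∀ (x : G) (n : ℕ), n ≠ 0 → x ^ n = 1 → x = 1

theorem TF.sub {G : Type} [Group G] (h : TF G) (H : Subgroup G) : TF H := fun x n hn hx =>
  Subtype.ext (h x n hn (congrArg Subtype.val hx))

theorem conj_pow_central {G : Type} [Group G] (x g c : G) (hc : c ∈ center G)
    (h : x * g = c * g * x) (n : ℕ) : x ^ n * g = c ^ n * g * x ^ n := by
  induction n with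
  | zero => simp
  | succ n ih =>
    have h1 : x ^ n * c = c * x ^ n := mem_center_iff.mp hc _
    calc x ^ (n + 1) * g = x ^ n * (x * g) := by rw [pow_succ, mul_assoc]
      _ = x ^ n * c * g * x := by rw [h]; simp only [mul_assoc]
      _ = c * (x ^ n * g) * x := by rw [h1]; simp only [mul_assoc]
      _ = c ^ (n + 1) * g * x ^ (n + 1) := by
        rw [ih, pow_succ' c, pow_succ x]; simp only [mul_assoc]

theorem ctf_quot {G : Type} [Group G]
    (h : ∀ z ∈ center G, ∀ n : ℕ, n ≠ 0 → z ^ n = 1 → z = 1) :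
    ∀ z ∈ center (G ⧸ center G), ∀ n : ℕ, n ≠ 0 → z ^ n = 1 → z = 1 := by
  intro z hz n hn hzn
  obtain ⟨x, rfl⟩ := QuotientGroup.mk_surjective z
  rw [← QuotientGroup.mk_pow, QuotientGroup.eq_one_iff] at hzn
  rw [QuotientGroup.eq_one_iff, mem_center_iff]
  intro g
  have hc : x * g * x⁻¹ * g⁻¹ ∈ center G := by
    rw [← QuotientGroup.eq_one_iff]
    have := mem_center_iff.mp hz (g : G ⧸ center G)
    simp only [QuotientGroup.mk_mul, QuotientGroup.mk_inv]
    rw [← this]
    group
  have h1 := conj_pow_central x g _ hc (by group) n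
  have h2 : g * x ^ n = x ^ n * g := mem_center_iff.mp hzn g
  have h3 : (x * g * x⁻¹ * g⁻¹) ^ n = 1 := by
    rw [← h2, mul_assoc] at h1
    exact (mul_right_cancel (h1.symm.trans (one_mul _).symm))
  have h4 := h _ hc n hn h3
  calc g * x = 1 * (g * x) := (one_mul _).symm
    _ = x * g := by rw [← h4]; group

theorem tf_of_ctf (G : Type) [Group G] [Group.IsNilpotent G] :
    (∀ z ∈ center G, ∀ n : ℕ, n ≠ 0 → z ^ n = 1 → z = 1) → TF G := by
  refine Group.nilpotent_center_quotient_ind
    (P := fun G _ _ => (∀ z ∈ center G, ∀ n : ℕ, n ≠ 0 → z ^ n = 1 → z = 1) → TF G) G ?_ ?_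
  · intro G _ _ _ x _ _ _
    exact Subsingleton.elim _ _
  · intro G _ _ ih h x n hn hx
    have h1 := ih (ctf_quot h) (x : G ⧸ center G) n hn (by rw [← QuotientGroup.mk_pow, hx]; rfl)
    exact h x ((QuotientGroup.eq_one_iff x).mp h1) n hn hx

theorem TF.quot {G : Type} [Group G] [Group.IsNilpotent G] (h : TF G) : TF (G ⧸ center G) :=
  tf_of_ctf _ (ctf_quot fun z _ n hn hz => h z n hn hz)

theorem fg_of_fng_central {G : Type} [Group G] {N : Subgroup G} (hN : N ≤ center G)
    (h : N.IsFinitelyNormallyGenerated) : N.FG := by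
  obtain ⟨T, hT, rfl⟩ := h
  have hle : closure T ≤ center G := closure_le_normalClosure.trans hN
  have : (closure T).Normal := ⟨fun a ha g => by
    rw [mem_center_iff.mp (hle ha) g, mul_inv_cancel_right]; exact ha⟩
  exact (fg_iff _).mpr ⟨T, le_antisymm closure_le_normalClosure
    (normalClosure_le_normal subset_closure), hT⟩

theorem fg_of_le_comm {G : Type} [Group G] {K L : Subgroup G} (hK : K ≤ center G) (hfg : K.FG)
    (hL : L ≤ K) : L.FG := by
  let inst : CommGroup K :=
    { (inferInstance : Group K) with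
      mul_comm := fun a b => Subtype.ext (mem_center_iff.mp (hK b.2) a.1) }
  have h1 : Group.FG K := (Group.fg_iff_subgroup_fg K).mpr hfg
  have h2 : Module.Finite ℤ (Additive K) := Module.Finite.iff_addGroup_fg.mpr inferInstance
  have h3 : (L.subgroupOf K).toAddSubgroup.toIntSubmodule.FG := IsNoetherian.noetherian _
  have h4 : (L.subgroupOf K).FG := by
    rw [Submodule.fg_iff_addSubgroup_fg] at h3
    exact (Subgroup.fg_iff_add_fg _).mpr h3
  obtain ⟨S, hS, hfin⟩ := (fg_iff _).mp h4
  refine (fg_iff _).mpr ⟨K.subtype '' S, ?_, hfin.image _⟩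
  rw [← MonoidHom.map_closure, hS, subgroupOf_map_subtype, inf_eq_left.mpr hL]

theorem ker_fng (Q : Type) [Group Q] [Group.IsNilpotent Q] :
    ∀ (G : Type) [Group G] [Group.FG G] (f : G →* Q), Function.Surjective f →
      f.ker.IsFinitelyNormallyGenerated := by
  refine Group.nilpotent_center_quotient_ind
    (P := fun Q _ _ => ∀ (G : Type) [Group G] [Group.FG G] (f : G →* Q), Function.Surjective f →
      f.ker.IsFinitelyNormallyGenerated) Q ?_ ?_
  · intro Q _ _ G _ hG f _
    have : f.ker = ⊤ := by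
      ext x
      simp [MonoidHom.mem_ker, Subsingleton.elim (f x) 1]
    rw [this]
    have : Group.FG (⊤ : Subgroup G) := (Group.fg_iff_subgroup_fg _).mpr hG.out
    exact IsFinitelyNormallyGenerated.of_FG _
  · intro Q _ _ ih G _ hG f hf
    obtain ⟨T, hT, hTK⟩ := ih G ((QuotientGroup.mk' (center Q)).comp f)
      ((QuotientGroup.mk'_surjective _).comp hf)
    obtain ⟨S, hS, hSfin⟩ := Group.fg_iff.mp hG
    have hTc : ∀ t ∈ T, f t ∈ center Q := by
      intro t ht
      have : t ∈ ((QuotientGroup.mk' (center Q)).comp f).ker := hTK ▸ subset_normalClosure ht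
      exact (QuotientGroup.eq_one_iff _).mp this
    let C : Set G := Set.image2 (fun t s => t * s * t⁻¹ * s⁻¹) T S
    have hC : C.Finite := hT.image2 _ hSfin
    let M : Subgroup G := normalClosure C
    have hM : M ≤ f.ker := by
      apply normalClosure_le_normal
      rintro _ ⟨t, ht, s, -, rfl⟩
      have := mem_center_iff.mp (hTc t ht) (f s)
      simp only [SetLike.mem_coe, MonoidHom.mem_ker, map_mul, map_inv]
      rw [← this]
      group
    let p := QuotientGroup.mk' M
    have hp : Function.Surjective p := QuotientGroup.mk'_surjective M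
    have hcen : (normalClosure T).map p ≤ center (G ⧸ M) := by
      rw [map_normalClosure _ _ hp]
      apply normalClosure_le_normal
      rintro _ ⟨t, ht, rfl⟩
      rw [SetLike.mem_coe, mem_center_iff]
      intro g
      obtain ⟨g, rfl⟩ := hp g
      have hg : g ∈ closure S := hS ▸ mem_top g
      induction hg using closure_induction with
      | mem s hs =>
        have : p (t * s * t⁻¹ * s⁻¹) = 1 :=
          (QuotientGroup.eq_one_iff _).mpr (subset_normalClosure ⟨t, ht, s, hs, rfl⟩)
        simp only [map_mul, map_inv] at this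
        calc p s * p t = 1 * (p s * p t) := (one_mul _).symm
          _ = p t * p s := by rw [← this]; group
      | one => simp
      | mul x y _ _ hx hy => rw [map_mul, mul_assoc, hy, ← mul_assoc, hx, mul_assoc]
      | inv x _ hx => rw [map_inv]; exact (Commute.inv_left hx : Commute _ _)
    have hfg : ((normalClosure T).map p).FG :=
      fg_of_fng_central hcen (IsFinitelyNormallyGenerated.map ⟨T, hT, rfl⟩ hp)
    have hle : f.ker.map p ≤ (normalClosure T).map p := by
      apply map_mono
      rw [hTK]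
      intro x hx
      rw [MonoidHom.mem_ker] at hx ⊢
      rw [MonoidHom.comp_apply, hx, map_one]
    have h1 : Group.FG (f.ker.map p) :=
      (Group.fg_iff_subgroup_fg _).mpr (fg_of_le_comm hcen hfg hle)
    have h2 : (f.ker.map p).Normal := Normal.map inferInstance p hp
    have h3 := (IsFinitelyNormallyGenerated.of_FG (f.ker.map p)).comap hp
      ⟨C, hC, (QuotientGroup.ker_mk' M).symm⟩
    rwa [comap_map_eq, QuotientGroup.ker_mk', sup_eq_left.mpr hM] at h3

theorem center_fg (H : Type) [Group H] [Group.IsNilpotent H] [Group.FG H] :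
    Group.FG (center H) := by
  have h := ker_fng (H ⧸ center H) H (QuotientGroup.mk' _) (QuotientGroup.mk'_surjective _)
  rw [QuotientGroup.ker_mk'] at h
  exact (Group.fg_iff_subgroup_fg _).mpr (fg_of_fng_central le_rfl h)

theorem sep_add {M : Type} [AddCommGroup M] [Module.Free ℤ M] (F : Finset M)
    (hF : ∀ x ∈ F, x ≠ 0) : ∃ l : M →ₗ[ℤ] ℤ, ∀ x ∈ F, l x ≠ 0 := by
  classical
  induction F using Finset.induction_on with
  | empty => exact ⟨0, by simp⟩
  | insert x F _ ih =>
    obtain ⟨l, hl⟩ := ih fun y hy => hF y (Finset.mem_insert_of_mem hy)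
    by_cases h0 : l x = 0
    · obtain ⟨l', hl'⟩ := Module.Projective.exists_dual_ne_zero ℤ
        (hF x (Finset.mem_insert_self x F))
      refine ⟨(1 + ∑ y ∈ F, |l' y|) • l + l', ?_⟩
      intro y hy
      rcases Finset.mem_insert.mp hy with rfl | hy
      · simpa [h0] using hl'
      · have h1 : |l' y| ≤ ∑ y ∈ F, |l' y| :=
          Finset.single_le_sum (f := fun y => |l' y|) (fun _ _ => abs_nonneg _) hy
        have h2 := hl y hy
        have h3 := le_abs_self (l' y)
        have h4 := neg_abs_le (l' y)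
        have h5 := abs_nonneg (l' y)
        simp only [LinearMap.add_apply, LinearMap.smul_apply, smul_eq_mul]
        intro h6
        rcases lt_or_gt_of_ne h2 with h7 | h7 <;> nlinarith
    · refine ⟨l, fun y hy => ?_⟩
      rcases Finset.mem_insert.mp hy with rfl | hy
      · exact h0
      · exact hl y hy

theorem sep (Z : Type) [Group Z] [hfg : Group.FG Z] (hc : ∀ a b : Z, a * b = b * a) (ht : TF Z)
    (F : Finset Z) (hF : ∀ x ∈ F, x ≠ 1) :
    ∃ l : Z →* Multiplicative ℤ, ∀ x ∈ F, l x ≠ 1 := by
  classical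
  let inst : CommGroup Z := { (inferInstance : Group Z) with mul_comm := hc }
  have h2 : Module.Finite ℤ (Additive Z) := Module.Finite.iff_addGroup_fg.mpr inferInstance
  have h3 : IsMulTorsionFree Z := by
    refine ⟨fun n hn a b hab => ?_⟩
    have : (a * b⁻¹) ^ n = 1 := by
      rw [mul_pow, inv_pow]
      exact mul_inv_eq_one.mpr hab
    exact mul_inv_eq_one.mp (ht _ n hn this)
  have h4 : Module.IsTorsionFree ℤ (Additive Z) := inferInstance
  obtain ⟨l, hl⟩ := sep_add (M := Additive Z) (F.image Additive.ofMul) (by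
    intro x hx
    obtain ⟨y, hy, rfl⟩ := Finset.mem_image.mp hx
    exact hF y hy)
  refine ⟨AddMonoidHom.toMultiplicativeRight l.toAddMonoidHom, fun x hx => ?_⟩
  exact hl _ (Finset.mem_image_of_mem _ hx)

theorem exists_phi (Q : Type) [Group Q] [Group.IsNilpotent Q] :
    Group.FG Q → TF Q → Nontrivial Q → ∃ (φ : Q →* Multiplicative ℤ) (q : Q), φ q ≠ 1 := by
  refine Group.nilpotent_center_quotient_ind
    (P := fun Q _ _ => Group.FG Q → TF Q → Nontrivial Q →
      ∃ (φ : Q →* Multiplicative ℤ) (q : Q), φ q ≠ 1) Q ?_ ?_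
  · intro Q _ _ _ _ h
    exact absurd h (not_nontrivial Q)
  · intro Q _ _ ih hfg ht hn
    by_cases h : Nontrivial (Q ⧸ center Q)
    · obtain ⟨φ, q, hq⟩ := ih inferInstance ht.quot h
      obtain ⟨x, rfl⟩ := QuotientGroup.mk_surjective q
      exact ⟨φ.comp (QuotientGroup.mk' _), x, hq⟩
    · rw [not_nontrivial_iff_subsingleton] at h
      obtain ⟨x, hx⟩ := exists_ne (1 : Q)
      obtain ⟨l, hl⟩ := sep Q (fun a b => mem_center_iff.mp
        ((QuotientGroup.eq_one_iff b).mp (Subsingleton.elim _ _)) a) ht {x} (by simpa using hx)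
      exact ⟨l, x, hl x (Finset.mem_singleton_self x)⟩

end Pool.Agent.Lib.BG7
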