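import Mathlib
import Pool.Agent.Lib.BG7.Grp
import Pool.Agent.Lib.MP_baf2fc_al.Main

set_option autoImplicit false

namespace Pool.Agent.Lib.BG7

open PowerSeries

section series
variable {A : Type} [Ring A]

/-- Vanishing below degree `n`. -/
def Vn (n : ℕ) (p : PowerSeries A) : Prop := ∀ j < n, coeff j p = 0

theorem Vn.mul {a b : ℕ} {p q : PowerSeries A} (hp : Vn a p) (hq : Vn b q) :
    Vn (a + b) (p * q) := by
  intro j hj
  rw [coeff_mul]
  refine Finset.sum_eq_zero fun x hx => ?_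
  have := Finset.HasAntidiagonal.mem_antidiagonal.mp hx
  by_cases h : x.1 < a
  · rw [hp _ h, zero_mul]
  · rw [hq _ (by omega), mul_zero]

theorem Vn.zero (p : PowerSeries A) : Vn 0 p := fun _ h => absurd h (Nat.not_lt_zero _)

theorem Vn.mul_left {b : ℕ} {q : PowerSeries A} (hq : Vn b q) (p : PowerSeries A) :
    Vn b (p * q) := by simpa using (Vn.zero p).mul hq

theorem Vn.mul_right {b : ℕ} {q : PowerSeries A} (hq : Vn b q) (p : PowerSeries A) :
    Vn b (q * p) := hq.mul (Vn.zero p)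

theorem Vn.add {a : ℕ} {p q : PowerSeries A} (hp : Vn a p) (hq : Vn a q) : Vn a (p + q) :=
  fun j hj => by rw [map_add, hp j hj, hq j hj, add_zero]

theorem Vn.neg {a : ℕ} {p : PowerSeries A} (hp : Vn a p) : Vn a (-p) :=
  fun j hj => by rw [map_neg, hp j hj, neg_zero]

theorem Vn.mono {a b : ℕ} {p : PowerSeries A} (hp : Vn a p) (h : b ≤ a) : Vn b p :=
  fun j hj => hp j (hj.trans_le h)

theorem Vn.pow {a : ℕ} (ha : 1 ≤ a) {y : PowerSeries A} (hy : Vn a y) (m : ℕ) :
    Vn (a + 1) ((1 + y) ^ m - 1 - (m : PowerSeries A) * y) := by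
  induction m with
  | zero => intro j _; simp
  | succ m ih =>
    have e : (1 + y) ^ (m + 1) - 1 - ((m + 1 : ℕ) : PowerSeries A) * y
        = ((1 + y) ^ m - 1 - (m : PowerSeries A) * y) * (1 + y)
          + (m : PowerSeries A) * (y * y) := by
      rw [pow_succ]
      push_cast
      noncomm_ring
    rw [e]
    exact (ih.mul_right _).add (((hy.mul hy).mono (by omega)).mul_left _)

variable {G : Type} [Group G]

/-- The congruence subgroups of a representation in power series. -/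
def Nn (μ : G →* PowerSeries A) (n : ℕ) : Subgroup G where
  carrier := {g | Vn n (μ g - 1)}
  one_mem' := fun j _ => by simp
  mul_mem' := by
    intro a b ha hb
    have e : μ (a * b) - 1 = μ a * (μ b - 1) + (μ a - 1) := by rw [map_mul]; noncomm_ring
    change Vn n _
    rw [e]
    exact (Vn.mul_left hb _).add ha
  inv_mem' := by
    intro a ha
    have e : μ a⁻¹ - 1 = -(μ a⁻¹ * (μ a - 1)) := by
      rw [mul_sub, ← map_mul, inv_mul_cancel, map_one, mul_one, neg_sub]
    change Vn n _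
    rw [e]
    exact (Vn.mul_left ha _).neg

theorem Nn_normal (μ : G →* PowerSeries A) (n : ℕ) : (Nn μ n).Normal := ⟨by
  intro a ha g
  have e : μ (g * a * g⁻¹) - 1 = μ g * (μ a - 1) * μ g⁻¹ := by
    rw [mul_sub, sub_mul, mul_one, ← map_mul μ g g⁻¹, mul_inv_cancel, map_one, map_mul, map_mul]
  change Vn n _
  rw [e]
  exact (Vn.mul_left ha _).mul_right _⟩

theorem lcs_le (μ : G →* PowerSeries A) (h1 : ∀ g, g ∈ Nn μ 1) (n : ℕ) :
    (⊤ : Subgroup G).lowerCentralSeries n ≤ Nn μ (n + 1) := by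
  induction n with
  | zero => exact fun g _ => h1 g
  | succ n ih =>
    rw [Subgroup.lowerCentralSeries_succ, Subgroup.commutator_le]
    intro g hg x _
    have e : μ (g * x * g⁻¹ * x⁻¹) - 1
        = ((μ g - 1) * (μ x - 1) + -((μ x - 1) * (μ g - 1))) * μ (g⁻¹ * x⁻¹) := by
      have e1 : μ x * μ g * μ (g⁻¹ * x⁻¹) = 1 := by
        rw [← map_mul, ← map_mul]
        simp
      have e2 : μ (g * x * g⁻¹ * x⁻¹) = μ g * μ x * μ (g⁻¹ * x⁻¹) := by
        rw [← map_mul, ← map_mul, mul_assoc (g * x)]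
      have e3 : (μ g - 1) * (μ x - 1) + -((μ x - 1) * (μ g - 1)) = μ g * μ x - μ x * μ g := by
        noncomm_ring
      rw [e2, e3, sub_mul, e1]
    change Vn (n + 1 + 1) (μ (g * x * g⁻¹ * x⁻¹) - 1)
    rw [e]
    refine (((ih hg).mul (h1 x)).add (Vn.neg ?_)).mul_right _
    exact (Vn.mul (h1 x) (ih hg)).mono (by omega)

theorem Nn_root (hA : ∀ (m : ℕ) (a : A), m ≠ 0 → (m : A) * a = 0 → a = 0)
    (μ : G →* PowerSeries A) (h1 : ∀ g, g ∈ Nn μ 1) (x : G) (m : ℕ) (hm : m ≠ 0) (n : ℕ)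
    (h : x ^ m ∈ Nn μ (n + 1)) : x ∈ Nn μ (n + 1) := by
  induction n with
  | zero => exact h1 x
  | succ n ih =>
    have h2 : Vn (n + 1) (μ x - 1) := ih (Vn.mono h (by omega))
    intro j hj
    rcases Nat.lt_succ_iff_lt_or_eq.mp hj with hj | rfl
    · exact h2 j hj
    · have h3 := h2.pow (by omega) m (n + 1) (by omega)
      have h4 : coeff (n + 1) (μ (x ^ m) - 1) = 0 := h (n + 1) (by omega)
      rw [add_sub_cancel, ← map_pow, map_sub, h4, zero_sub, neg_eq_zero, ← nsmul_eq_mul,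
        map_nsmul, nsmul_eq_mul] at h3
      exact hA m _ hm h3

theorem rtfn_of_series (hA : ∀ (m : ℕ) (a : A), m ≠ 0 → (m : A) * a = 0 → a = 0)
    (μ : G →* PowerSeries A) (h1 : ∀ g, coeff 0 (μ g) = 1) (g : G) (hg : μ g ≠ 1) :
    ∃ (N : Subgroup G) (_ : N.Normal), g ∉ N ∧ Group.IsNilpotent (G ⧸ N) ∧ TF (G ⧸ N) := by
  have h1' : ∀ g, g ∈ Nn μ 1 := by
    intro g j hj
    rw [Nat.lt_one_iff.mp hj, map_sub, h1]
    simp
  obtain ⟨n, hn⟩ : ∃ n, coeff n (μ g - 1) ≠ 0 := by
    by_contra hc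
    push Not at hc
    exact hg (sub_eq_zero.mp (PowerSeries.ext hc))
  have := Nn_normal μ (n + 1)
  refine ⟨Nn μ (n + 1), this, fun h => hn (h n (Nat.lt_succ_self n)), ?_, ?_⟩
  · rw [Subgroup.nilpotent_iff_lowerCentralSeries]
    refine ⟨n, ?_⟩
    rw [← Subgroup.map_top_of_surjective _ (QuotientGroup.mk'_surjective (Nn μ (n + 1))),
      ← Subgroup.map_lowerCentralSeries, Subgroup.map_eq_bot_iff, QuotientGroup.ker_mk']
    exact lcs_le μ h1' n
  · intro x m hm hx
    obtain ⟨x, rfl⟩ := QuotientGroup.mk_surjective x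
    rw [← QuotientGroup.mk_pow, QuotientGroup.eq_one_iff] at hx
    exact (QuotientGroup.eq_one_iff x).mpr (Nn_root hA μ h1' x m hm n hx)

end series

open Pool.Agent.Lib.MP_baf2fc_al in
theorem rtfn_free (F : Type) [Group F] [IsFreeGroup F] (g : F) (hg : g ≠ 1) :
    ∃ (N : Subgroup F) (_ : N.Normal), g ∉ N ∧ Group.IsNilpotent (F ⧸ N) ∧ TF (F ⧸ N) := by
  classical
  let β := IsFreeGroup.Generators F
  let θ : F →* FreeGroup (Option β) :=
    IsFreeGroup.lift fun i => FreeGroup.of (some i) * (FreeGroup.of none)⁻¹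
  let ρ : FreeGroup (Option β) →* F := FreeGroup.lift fun o => o.elim 1 IsFreeGroup.of
  have h1 : ρ.comp θ = MonoidHom.id F := by
    apply IsFreeGroup.ext_hom
    intro i
    simp [ρ, θ]
  have h2 : lam.comp θ = 1 := by
    apply IsFreeGroup.ext_hom
    intro i
    simp [lam, θ]
  refine rtfn_of_series (A := MonoidAlgebra ℚ (W (Option β))) ?_ ((phi ℚ).comp θ) ?_ g ?_
  · intro m a hm h
    rw [← nsmul_eq_mul, ← Nat.cast_smul_eq_nsmul ℚ] at h
    exact (smul_eq_zero.mp h).resolve_left (Nat.cast_ne_zero.mpr hm)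
  · intro x
    have h3 : lamZ (θ x) = 0 := congrArg Multiplicative.toAdd (DFunLike.congr_fun h2 x)
    rw [MonoidHom.comp_apply]
    rw [← FreeGroup.mk_toWord (x := θ x)] at h3 ⊢
    rw [lamZ_mk] at h3
    rw [phi_mk, coeff_zero_prod, h3]
    rfl
  · intro h
    have h3 : θ g ≠ 1 := fun e => hg (by
      have := DFunLike.congr_fun h1 g
      rw [MonoidHom.comp_apply, e, map_one] at this
      exact this.symm)
    have h4 := suppB (k := ℚ) _ (edges_chain _ (FreeGroup.isReduced_toWord (x := θ g)))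
    rw [← phi_mk, FreeGroup.mk_toWord] at h4
    rw [MonoidHom.comp_apply] at h
    rw [h, coeff_one, if_neg] at h4
    · simp at h4
    · intro e
      exact h3 (FreeGroup.toWord_eq_nil_iff.mp (List.length_eq_zero_iff.mp e))

end Pool.Agent.Lib.BG7
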