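import Mathlib

set_option autoImplicit false

namespace Pool.Agent.Lib.BG7

open PowerSeries

variable {k : Type} [Field k] {H Q : Type} [Group H] [Group Q]

theorem exists_of_coeff_mul3 {p1 p2 U : PowerSeries k} {j : ℕ}
    (h : coeff j (p1 * p2 * U) ≠ 0) :
    ∃ i1 i2, i1 + i2 ≤ j ∧ coeff i1 p1 ≠ 0 ∧ coeff i2 p2 ≠ 0 := by
  rw [coeff_mul] at h
  obtain ⟨⟨a, b⟩, hab, h⟩ := Finset.exists_ne_zero_of_sum_ne_zero h
  have h2 := left_ne_zero_of_mul h
  rw [coeff_mul] at h2
  obtain ⟨⟨c, d⟩, hcd, h2⟩ := Finset.exists_ne_zero_of_sum_ne_zero h2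
  rw [Finset.HasAntidiagonal.mem_antidiagonal] at hab hcd
  exact ⟨c, d, by simp only at hab hcd; omega, left_ne_zero_of_mul h2, right_ne_zero_of_mul h2⟩

theorem coeff_lead {p1 p2 U : PowerSeries k} {j1 j2 : ℕ} (h1 : ∀ i < j1, coeff i p1 = 0)
    (h2 : ∀ i < j2, coeff i p2 = 0) (hU : constantCoeff U = 1) :
    coeff (j1 + j2) (p1 * p2 * U) = coeff j1 p1 * coeff j2 p2 := by
  obtain ⟨a, rfl⟩ := X_pow_dvd_iff.mpr h1
  obtain ⟨b, rfl⟩ := X_pow_dvd_iff.mpr h2
  have e : X ^ j1 * a * (X ^ j2 * b) * U = X ^ (j1 + j2) * (a * b * U) := by ring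
  have e1 := coeff_X_pow_mul a j1 0
  have e2 := coeff_X_pow_mul b j2 0
  have e3 := coeff_X_pow_mul (a * b * U) (j1 + j2) 0
  rw [zero_add] at e1 e2 e3
  rw [e, e1, e2, e3]
  simp [hU]

/-- All coefficients of `p` lie above the line of slope `κ` through `r`. -/
def GoodP (κ r : ℝ) (p : PowerSeries k) : Prop := ∀ j : ℕ, coeff j p ≠ 0 → r ≤ κ * j

theorem GoodP.rescale {κ r : ℝ} {p : PowerSeries k} (h : GoodP κ r p) (c : k) :
    GoodP κ r (rescale c p) := by
  intro j hj
  rw [coeff_rescale] at hj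
  exact h j (right_ne_zero_of_mul hj)

theorem GoodP.mul3 {κ r1 r2 : ℝ} (hκ : 0 < κ) {p1 p2 : PowerSeries k} (U : PowerSeries k)
    (h1 : GoodP κ r1 p1) (h2 : GoodP κ r2 p2) : GoodP κ (r1 + r2) (p1 * p2 * U) := by
  intro j hj
  obtain ⟨i1, i2, hi, a1, a2⟩ := exists_of_coeff_mul3 hj
  have b1 := h1 _ a1
  have b2 := h2 _ a2
  have : ((i1 : ℝ) + i2) ≤ j := by exact_mod_cast hi
  nlinarith

theorem GoodP.lt {κ r : ℝ} (hκ : 0 < κ) {p : PowerSeries k} (h : GoodP κ r p) {j : ℕ}
    (hj : κ * j = r) : ∀ i < j, coeff i p = 0 := by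
  intro i hi
  by_contra hc
  have h1 := h i hc
  have : (i : ℝ) < j := by exact_mod_cast hi
  nlinarith

open Classical in
/-- The coefficient on the line. -/
noncomputable def Lc (k : Type) [Field k] (κ r : ℝ) : PowerSeries k →ₗ[k] k :=
  if h : ∃ j : ℕ, κ * j = r then coeff h.choose else 0

theorem Lc_eq {κ r : ℝ} (hκ : 0 < κ) {j : ℕ} (hj : κ * j = r) (p : PowerSeries k) :
    Lc k κ r p = coeff j p := by
  have h : ∃ j : ℕ, κ * j = r := ⟨j, hj⟩
  have h2 : h.choose = j := by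
    have h3 := h.choose_spec.trans hj.symm
    exact_mod_cast mul_left_cancel₀ hκ.ne' h3
  rw [Lc, dif_pos h, h2]

theorem Lc_none {κ r : ℝ} (h : ¬ ∃ j : ℕ, κ * j = r) (p : PowerSeries k) : Lc k κ r p = 0 := by
  rw [Lc, dif_neg h]
  rfl

theorem Lc_mul {κ r1 r2 : ℝ} (hκ : 0 < κ) {p1 p2 U : PowerSeries k} (c b b1 b2 : k)
    (h1 : GoodP κ r1 p1) (h2 : GoodP κ r2 p2) (hU : constantCoeff U = 1)
    (hb : ∀ j1 j2 : ℕ, κ * j1 = r1 → κ * j2 = r2 → b * c ^ j2 = b1 * b2) :
    b * Lc k κ (r1 + r2) (p1 * rescale c p2 * U) = b1 * Lc k κ r1 p1 * (b2 * Lc k κ r2 p2) := by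
  by_cases hc : (∃ j : ℕ, κ * j = r1) ∧ ∃ j : ℕ, κ * j = r2
  · obtain ⟨⟨j1, e1⟩, ⟨j2, e2⟩⟩ := hc
    have e3 : κ * ((j1 + j2 : ℕ) : ℝ) = r1 + r2 := by push_cast; linarith
    rw [Lc_eq hκ e1, Lc_eq hκ e2, Lc_eq hκ e3,
      coeff_lead (h1.lt hκ e1) ((h2.rescale c).lt hκ e2) hU, coeff_rescale]
    have := hb j1 j2 e1 e2
    linear_combination (coeff j1 p1 * coeff j2 p2) * this
  · have hr : Lc k κ r1 p1 = 0 ∨ Lc k κ r2 p2 = 0 := by
      rcases not_and_or.mp hc with h | h
      · exact Or.inl (Lc_none h _)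
      · exact Or.inr (Lc_none h _)
    have hl : Lc k κ (r1 + r2) (p1 * rescale c p2 * U) = 0 := by
      by_cases h : ∃ j : ℕ, κ * j = r1 + r2
      · obtain ⟨j, hj⟩ := h
        rw [Lc_eq hκ hj]
        by_contra hne
        obtain ⟨i1, i2, hi, a1, a2⟩ := exists_of_coeff_mul3 hne
        have b1 := h1 _ a1
        have b2 := h2.rescale c _ a2
        have : ((i1 : ℝ) + i2) ≤ j := by exact_mod_cast hi
        exact hc ⟨⟨i1, by nlinarith⟩, ⟨i2, by nlinarith⟩⟩
      · exact Lc_none h _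
    rw [hl]
    rcases hr with h | h <;> simp [h]

/-- Collect the terms of an element of the group algebra along the fibres of `π`. -/
noncomputable def Aa (π : H →* Q) (u : H → PowerSeries k) :
    MonoidAlgebra k H →ₗ[k] (Q →₀ PowerSeries k) :=
  (Finsupp.linearCombination k fun h => Finsupp.single (π h) (u h)).comp
    (MonoidAlgebra.coeffLinearEquiv k).toLinearMap

theorem Aa_single (π : H →* Q) (u : H → PowerSeries k) (h : H) (c : k) :
    Aa π u (MonoidAlgebra.single h c) = Finsupp.single (π h) (c • u h) := by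
  change Finsupp.linearCombination k _ (Finsupp.single h c) = _
  rw [Finsupp.linearCombination_single, Finsupp.smul_single]

open Classical in
theorem Aa_apply (π : H →* Q) (u : H → PowerSeries k) (a : MonoidAlgebra k H) (q : Q) :
    Aa π u a q = ∑ h ∈ a.coeff.support with π h = q, a.coeff h • u h := by
  change (Finsupp.linearCombination k (fun h => Finsupp.single (π h) (u h)) a.coeff) q = _
  rw [Finsupp.linearCombination_apply, Finsupp.sum, Finsupp.finsetSum_apply, Finset.sum_filter]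
  refine Finset.sum_congr rfl fun h _ => ?_
  rw [Finsupp.smul_single, Finsupp.single_apply]

theorem coeff_zero_Aa (π : H →* Q) (u : H → PowerSeries k) (hu : ∀ h, constantCoeff (u h) = 1)
    (a : MonoidAlgebra k H) (q : Q) :
    coeff 0 (Aa π u a q) = (MonoidAlgebra.mapDomain π a).coeff q := by
  classical
  induction a using MonoidAlgebra.induction_linear with
  | zero => simp
  | add x y hx hy =>
    rw [map_add, Finsupp.add_apply, map_add, hx, hy, MonoidAlgebra.mapDomain_add,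
      MonoidAlgebra.coeff_add, Finsupp.add_apply]
  | single h c =>
    rw [Aa_single, MonoidAlgebra.mapDomain_single, MonoidAlgebra.coeff_single,
      Finsupp.single_apply, Finsupp.single_apply]
    split_ifs
    · simp [hu]
    · simp

/-- The twisted convolution. -/
noncomputable def tw (χ : Q → k) (U : Q → Q → PowerSeries k) (x y : Q →₀ PowerSeries k) :
    Q →₀ PowerSeries k :=
  x.sum fun q1 p1 => y.sum fun q2 p2 => Finsupp.single (q1 * q2) (p1 * rescale (χ q1) p2 * U q1 q2)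

theorem tw_add_left (χ : Q → k) (U : Q → Q → PowerSeries k) (x x' y : Q →₀ PowerSeries k) :
    tw χ U (x + x') y = tw χ U x y + tw χ U x' y := by
  unfold tw
  rw [Finsupp.sum_add_index']
  · simp
  · intro q p p'
    simp only [add_mul, Finsupp.single_add, Finsupp.sum_add]

theorem tw_add_right (χ : Q → k) (U : Q → Q → PowerSeries k) (x y y' : Q →₀ PowerSeries k) :
    tw χ U x (y + y') = tw χ U x y + tw χ U x y' := by
  unfold tw
  rw [← Finsupp.sum_add]
  refine Finsupp.sum_congr fun q _ => ?_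
  rw [Finsupp.sum_add_index']
  · simp
  · intro q' p p'
    simp only [map_add, mul_add, add_mul, Finsupp.single_add]

theorem tw_single (χ : Q → k) (U : Q → Q → PowerSeries k) (q1 q2 : Q) (p1 p2 : PowerSeries k) :
    tw χ U (Finsupp.single q1 p1) (Finsupp.single q2 p2)
      = Finsupp.single (q1 * q2) (p1 * rescale (χ q1) p2 * U q1 q2) := by
  unfold tw
  rw [Finsupp.sum_single_index, Finsupp.sum_single_index]
  · simp
  · simp

theorem rescale_smul (c d : k) (p : PowerSeries k) : rescale c (d • p) = d • rescale c p := by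
  ext j
  simp only [coeff_rescale, map_smul, smul_eq_mul]
  ring

theorem Aa_mul (π : H →* Q) (u : H → PowerSeries k) (χ : Q → k) (U : Q → Q → PowerSeries k)
    (hmul : ∀ h h', u (h * h') = u h * rescale (χ (π h)) (u h') * U (π h) (π h'))
    (a b : MonoidAlgebra k H) : Aa π u (a * b) = tw χ U (Aa π u a) (Aa π u b) := by
  induction a using MonoidAlgebra.induction_linear with
  | zero => simp [tw]
  | add x y hx hy => rw [add_mul, map_add, map_add, tw_add_left, hx, hy]
  | single h c =>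
    induction b using MonoidAlgebra.induction_linear with
    | zero => simp [tw]
    | add x y hx hy => rw [mul_add, map_add, map_add, tw_add_right, hx, hy]
    | single h' c' =>
      rw [MonoidAlgebra.single_mul_single, Aa_single, Aa_single, Aa_single, tw_single, map_mul,
        hmul, rescale_smul]
      congr 1
      simp only [smul_mul_assoc, mul_smul_comm, smul_smul, mul_comm c' c]

/-- The leading part along the line. -/
noncomputable def Lam (κ : ℝ) (w : Q → ℝ) (β : Q → k) :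
    (Q →₀ PowerSeries k) →ₗ[k] MonoidAlgebra k Q :=
  Finsupp.lsum k fun q => (MonoidAlgebra.lsingle q).comp (β q • Lc k κ (w q))

omit [Group Q] in
theorem Lam_single (κ : ℝ) (w : Q → ℝ) (β : Q → k) (q : Q) (p : PowerSeries k) :
    Lam κ w β (Finsupp.single q p) = MonoidAlgebra.single q (β q * Lc k κ (w q) p) := by
  rw [Lam, Finsupp.lsum_single]
  rfl

omit [Group Q] in
theorem Lam_apply (κ : ℝ) (w : Q → ℝ) (β : Q → k) (x : Q →₀ PowerSeries k) :
    Lam κ w β x = ∑ q ∈ x.support, MonoidAlgebra.single q (β q * Lc k κ (w q) (x q)) := by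
  rw [Lam, Finsupp.lsum_apply]
  rfl

omit [Group Q] in
theorem coeff_Lam (κ : ℝ) (w : Q → ℝ) (β : Q → k) (x : Q →₀ PowerSeries k) (q : Q) :
    (Lam κ w β x).coeff q = β q * Lc k κ (w q) (x q) := by
  classical
  induction x using Finsupp.induction_linear with
  | zero => simp
  | add x y hx hy =>
    rw [map_add, MonoidAlgebra.coeff_add, Finsupp.add_apply, hx, hy, Finsupp.add_apply, map_add,
      mul_add]
  | single q' p =>
    rw [Lam_single, MonoidAlgebra.coeff_single, Finsupp.single_apply, Finsupp.single_apply]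
    split_ifs with h
    · rw [h]
    · simp

theorem good_tw {κ : ℝ} (hκ : 0 < κ) (χ : Q → k) (U : Q → Q → PowerSeries k) (w : Q → ℝ)
    (hw : ∀ q q', w (q * q') = w q + w q') {x y : Q →₀ PowerSeries k}
    (hx : ∀ q, GoodP κ (w q) (x q)) (hy : ∀ q, GoodP κ (w q) (y q)) (q : Q) :
    GoodP κ (w q) (tw χ U x y q) := by
  classical
  intro j hj
  simp only [tw, Finsupp.sum, Finsupp.finsetSum_apply, map_sum] at hj
  obtain ⟨q1, -, hj⟩ := Finset.exists_ne_zero_of_sum_ne_zero hj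
  obtain ⟨q2, -, hj⟩ := Finset.exists_ne_zero_of_sum_ne_zero hj
  rw [Finsupp.single_apply] at hj
  split_ifs at hj with h
  · rw [← h, hw]
    exact GoodP.mul3 hκ _ (hx q1) ((hy q2).rescale _) j hj
  · simp at hj

theorem Lam_tw {κ : ℝ} (hκ : 0 < κ) (χ : Q → k) (U : Q → Q → PowerSeries k) (w : Q → ℝ)
    (β : Q → k) (hw : ∀ q q', w (q * q') = w q + w q') (hU : ∀ q q', constantCoeff (U q q') = 1)
    (hβ : ∀ q1 q2 (j1 j2 : ℕ), κ * j1 = w q1 → κ * j2 = w q2 →
      β (q1 * q2) * χ q1 ^ j2 = β q1 * β q2)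
    {x y : Q →₀ PowerSeries k}
    (hx : ∀ q, GoodP κ (w q) (x q)) (hy : ∀ q, GoodP κ (w q) (y q)) :
    Lam κ w β (tw χ U x y) = Lam κ w β x * Lam κ w β y := by
  rw [Lam_apply κ w β x, Lam_apply κ w β y, Finset.sum_mul_sum]
  simp only [tw, Finsupp.sum, map_sum, Lam_single, MonoidAlgebra.single_mul_single]
  refine Finset.sum_congr rfl fun q1 _ => Finset.sum_congr rfl fun q2 _ => ?_
  rw [hw, Lc_mul hκ _ _ _ _ (hx q1) (hy q2) (hU q1 q2) (hβ q1 q2)]

/-- The slope step. -/
theorem slope (π : H →* Q) (u : H → PowerSeries k) (χ : Q → k) (U : Q → Q → PowerSeries k)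
    (w : Q → ℝ) (hu : ∀ h, constantCoeff (u h) = 1) (hU : ∀ q q', constantCoeff (U q q') = 1)
    (hmul : ∀ h h', u (h * h') = u h * rescale (χ (π h)) (u h') * U (π h) (π h'))
    (hw : ∀ q q', w (q * q') = w q + w q')
    (hβ : ∀ κ : ℝ, 0 < κ → ∃ β : Q → k, β 1 = 1 ∧ (∀ q, β q ≠ 0) ∧
      ∀ q1 q2 (j1 j2 : ℕ), κ * j1 = w q1 → κ * j2 = w q2 → β (q1 * q2) * χ q1 ^ j2 = β q1 * β q2)
    (S : Finset (MonoidAlgebra k H))
    (hS : ∀ a ∈ S, ∀ q, q ≠ 1 → (MonoidAlgebra.mapDomain π a).coeff q = 0)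
    (a0 : MonoidAlgebra k H) (ha0 : a0 ∈ S) (q0 : Q) (hq0 : 0 < w q0) (hA : Aa π u a0 q0 ≠ 0) :
    ∃ f : Algebra.adjoin k (S : Set (MonoidAlgebra k H)) →ₐ[k] MonoidAlgebra k Q,
      ∃ r q, q ≠ 1 ∧ (f r).coeff q ≠ 0 := by
  classical
  have hw1 : w 1 = 0 := by
    have := hw 1 1
    rw [mul_one] at this
    linarith
  let T : Finset (MonoidAlgebra k H × Q) :=
    (S.biUnion fun a => (Aa π u a).support.image fun q => (a, q)).filter fun x => 0 < w x.2
  have hT : ∀ a q, (a, q) ∈ T ↔ a ∈ S ∧ Aa π u a q ≠ 0 ∧ 0 < w q := by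
    intro a q
    simp only [T, Finset.mem_filter, Finset.mem_biUnion, Finset.mem_image, Prod.mk.injEq,
      Finsupp.mem_support_iff]
    constructor
    · rintro ⟨⟨a', h1, q', h2, rfl, rfl⟩, h3⟩
      exact ⟨h1, h2, h3⟩
    · rintro ⟨h1, h2, h3⟩
      exact ⟨⟨a, h1, q, h2, rfl, rfl⟩, h3⟩
  let o : MonoidAlgebra k H × Q → ℕ := fun x => (Aa π u x.1 x.2).order.toNat
  have ho : ∀ a q, (a, q) ∈ T → coeff (o (a, q)) (Aa π u a q) ≠ 0 := fun a q h =>
    coeff_order ((hT a q).mp h).2.1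
  have hopos : ∀ a q, (a, q) ∈ T → (0 : ℝ) < o (a, q) := by
    intro a q h
    have h1 := ho a q h
    obtain ⟨h2, -, h3⟩ := (hT a q).mp h
    have : o (a, q) ≠ 0 := by
      intro h0
      rw [h0, coeff_zero_Aa π u hu] at h1
      refine h1 (hS a h2 q ?_)
      rintro rfl
      rw [hw1] at h3
      exact lt_irrefl _ h3
    exact_mod_cast Nat.pos_of_ne_zero this
  obtain ⟨⟨a1, q1⟩, h1T, hmax⟩ := T.exists_max_image (fun x => w x.2 / o x)
    ⟨(a0, q0), (hT _ _).mpr ⟨ha0, hA, hq0⟩⟩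
  obtain ⟨ha1, -, hq1⟩ := (hT _ _).mp h1T
  set κ : ℝ := w q1 / o (a1, q1) with hκdef
  have hκ : 0 < κ := div_pos hq1 (hopos _ _ h1T)
  have hκ1 : κ * o (a1, q1) = w q1 := div_mul_cancel₀ _ (hopos _ _ h1T).ne'
  obtain ⟨β, hβ1, hβ0, hβm⟩ := hβ κ hκ
  have hgood : ∀ a ∈ S, ∀ q, GoodP κ (w q) (Aa π u a q) := by
    intro a ha q j hj
    have hj0 : (0 : ℝ) ≤ κ * j := mul_nonneg hκ.le (Nat.cast_nonneg j)
    by_cases hq : 0 < w q
    · have hne : Aa π u a q ≠ 0 := by
        intro h0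
        rw [h0, map_zero] at hj
        exact hj rfl
      have hmem := (hT a q).mpr ⟨ha, hne, hq⟩
      have h2 : w q / o (a, q) ≤ κ := hmax _ hmem
      rw [div_le_iff₀ (hopos _ _ hmem)] at h2
      have h3 : o (a, q) ≤ j := by
        by_contra hlt
        exact hj (coeff_of_lt_order_toNat j (not_le.mp hlt))
      have h4 : (o (a, q) : ℝ) ≤ j := by exact_mod_cast h3
      nlinarith
    · linarith
  let F : Subalgebra k (MonoidAlgebra k H) :=
    { carrier := {a | ∀ q, GoodP κ (w q) (Aa π u a q)}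
      mul_mem' := by
        intro a b ha hb q
        rw [Aa_mul π u χ U hmul]
        exact good_tw hκ χ U w hw ha hb q
      add_mem' := by
        intro a b ha hb q j hj
        rw [map_add, Finsupp.add_apply, map_add] at hj
        by_cases h : coeff j (Aa π u a q) = 0
        · rw [h, zero_add] at hj
          exact hb q j hj
        · exact ha q j h
      algebraMap_mem' := by
        intro c q j hj
        have e : algebraMap k (MonoidAlgebra k H) c = MonoidAlgebra.single 1 c := rfl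
        rw [e, Aa_single, map_one, Finsupp.single_apply] at hj
        split_ifs at hj with h
        · rw [← h, hw1]
          exact mul_nonneg hκ.le (Nat.cast_nonneg j)
        · simp at hj }
  have hle : Algebra.adjoin k (S : Set (MonoidAlgebra k H)) ≤ F :=
    Algebra.adjoin_le fun a ha => hgood a ha
  let f : Algebra.adjoin k (S : Set (MonoidAlgebra k H)) →ₐ[k] MonoidAlgebra k Q :=
    AlgHom.ofLinearMap (((Lam κ w β).comp (Aa π u)).comp (Subalgebra.val _).toLinearMap)
      (by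
        change Lam κ w β (Aa π u (MonoidAlgebra.single 1 1)) = MonoidAlgebra.single 1 1
        have e : κ * ((0 : ℕ) : ℝ) = w 1 := by simp [hw1]
        rw [Aa_single, map_one, Lam_single, Lc_eq hκ e, hβ1]
        simp [hu])
      (by
        intro a b
        change Lam κ w β (Aa π u (a.1 * b.1)) = Lam κ w β (Aa π u a.1) * Lam κ w β (Aa π u b.1)
        rw [Aa_mul π u χ U hmul]
        exact Lam_tw hκ χ U w β hw hU hβm (hle a.2) (hle b.2))
  refine ⟨f, ⟨a1, Algebra.subset_adjoin ha1⟩, q1, ?_, ?_⟩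
  · rintro rfl
    rw [hw1] at hq1
    exact lt_irrefl _ hq1
  · change (Lam κ w β (Aa π u a1)).coeff q1 ≠ 0
    rw [coeff_Lam, Lc_eq hκ hκ1]
    exact mul_ne_zero (hβ0 _) (ho _ _ h1T)

end Pool.Agent.Lib.BG7
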