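import Mathlib
import Pool.Agent.Lib.BG7.Slope
import Pool.Agent.Lib.BG7.Grp

set_option autoImplicit false

namespace Pool.Agent.Lib.BG7

open PowerSeries

variable {k : Type} [Field k]

/-- The algebra has a map to Laurent polynomials with non-constant image. -/
def NC (k : Type) [Field k] (R : Type) [Ring R] [Algebra k R] : Prop :=
  ∃ (f : R →ₐ[k] LaurentPolynomial k) (r : R), ∀ c : k, f r ≠ LaurentPolynomial.C c

/-- Every finitely generated non-scalar subalgebra of `k[G]` has such a map. -/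
def BP (k : Type) [Field k] (G : Type) [Group G] : Prop :=
  ∀ R : Subalgebra k (MonoidAlgebra k G), R.FG → (∃ r ∈ R, ∃ g, g ≠ 1 ∧ r.coeff g ≠ 0) → NC k R

theorem BP.transfer {Q : Type} [Group Q] (hQ : BP k Q) {A : Type} [Ring A] [Algebra k A]
    {R : Subalgebra k A} (hR : R.FG) (f : R →ₐ[k] MonoidAlgebra k Q) (r : R) (q : Q)
    (hq : q ≠ 1) (h : (f r).coeff q ≠ 0) : NC k R := by
  have h1 : f.range.FG := by
    rw [← Algebra.map_top]
    exact ((Subalgebra.fg_top R).mpr hR).map f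
  obtain ⟨g, ⟨_, s, rfl⟩, hg⟩ := hQ f.range h1 ⟨f r, ⟨r, rfl⟩, q, hq, h⟩
  exact ⟨g.comp f.rangeRestrict, s, hg⟩

theorem BP.of_gen {G : Type} [Group G]
    (h : ∀ (H : Subgroup G) (S : Finset (MonoidAlgebra k H)), Group.FG H →
      Subgroup.closure {x : H | ∃ a ∈ S, a.coeff x ≠ 0} = ⊤ →
      (∃ a ∈ S, ∃ x, x ≠ 1 ∧ a.coeff x ≠ 0) →
      NC k (Algebra.adjoin k (S : Set (MonoidAlgebra k H)))) : BP k G := by
  classical
  rintro R ⟨S, rfl⟩ ⟨r, hr, g, hg, hrg⟩
  let D : Set G := {x | ∃ a ∈ S, a.coeff x ≠ 0}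
  have hD : D.Finite := by
    refine (S.biUnion fun a => a.coeff.support).finite_toSet.subset ?_
    rintro x ⟨a, ha, hx⟩
    exact Finset.mem_coe.mpr (Finset.mem_biUnion.mpr ⟨a, ha, Finsupp.mem_support_iff.mpr hx⟩)
  let H := Subgroup.closure D
  have hinj : Function.Injective H.subtype := H.subtype_injective
  let S' := S.image (MonoidAlgebra.comapDomain H.subtype hinj)
  have hco : ∀ (a : MonoidAlgebra k G) (x : H),
      (MonoidAlgebra.comapDomain H.subtype hinj a).coeff x = a.coeff x := fun a x => rfl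
  have hex : ∃ a ∈ S, ∃ x, x ≠ 1 ∧ a.coeff x ≠ 0 := by
    by_contra hc
    push Not at hc
    have hle : Algebra.adjoin k (S : Set (MonoidAlgebra k G)) ≤ ⊥ := by
      rw [Algebra.adjoin_le_iff]
      intro a ha
      refine Algebra.mem_bot.mpr ⟨a.coeff 1, ?_⟩
      apply MonoidAlgebra.coeff_injective
      ext x
      change (Finsupp.single (1 : G) (a.coeff 1)) x = a.coeff x
      rw [Finsupp.single_apply]
      split_ifs with h1
      · rw [h1]
      · exact (hc a ha x (Ne.symm h1)).symm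
    obtain ⟨c, rfl⟩ := Algebra.mem_bot.mp (hle hr)
    apply hrg
    change (Finsupp.single (1 : G) c) g = 0
    exact Finsupp.single_eq_of_ne hg
  obtain ⟨f, s, hf⟩ := h H S' ((Group.fg_iff_subgroup_fg H).mpr
    ((Subgroup.fg_iff H).mpr ⟨D, rfl, hD⟩)) (by
      have e : {x : H | ∃ a ∈ S', a.coeff x ≠ 0} = ((↑) : H → G) ⁻¹' D := by
        ext x
        constructor
        · rintro ⟨a, ha, hx⟩
          obtain ⟨b, hb, rfl⟩ := Finset.mem_image.mp ha
          exact ⟨b, hb, hx⟩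
        · rintro ⟨a, ha, hx⟩
          exact ⟨_, Finset.mem_image_of_mem _ ha, hx⟩
      rw [e]
      exact Subgroup.closure_closure_coe_preimage) (by
      obtain ⟨a, ha, x, hx, hax⟩ := hex
      exact ⟨_, Finset.mem_image_of_mem _ ha, ⟨x, Subgroup.subset_closure ⟨a, ha, hax⟩⟩,
        fun h => hx (congrArg Subtype.val h), hax⟩)
  have hι : Function.Injective (MonoidAlgebra.mapDomainAlgHom k k H.subtype) :=
    MonoidAlgebra.mapDomain_injective hinj
  have hback : ∀ a ∈ S, MonoidAlgebra.mapDomainAlgHom k k H.subtype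
      (MonoidAlgebra.comapDomain H.subtype hinj a) = a := by
    intro a ha
    apply MonoidAlgebra.mapDomain_comapDomain
    intro x hx
    exact ⟨⟨x, Subgroup.subset_closure ⟨a, ha, Finsupp.mem_support_iff.mp hx⟩⟩, rfl⟩
  have himg : (Algebra.adjoin k (S' : Set (MonoidAlgebra k H))).map
      (MonoidAlgebra.mapDomainAlgHom k k H.subtype)
      = Algebra.adjoin k (S : Set (MonoidAlgebra k G)) := by
    rw [AlgHom.map_adjoin]
    congr 1
    ext a
    constructor
    · rintro ⟨b, hb, rfl⟩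
      obtain ⟨c, hc, rfl⟩ := Finset.mem_image.mp hb
      rw [hback c hc]
      exact hc
    · intro ha
      exact ⟨_, Finset.mem_image_of_mem _ ha, hback a ha⟩
  obtain ⟨E⟩ : Nonempty (Algebra.adjoin k (S' : Set (MonoidAlgebra k H)) ≃ₐ[k]
      Algebra.adjoin k (S : Set (MonoidAlgebra k G))) :=
    ⟨(Subalgebra.equivMapOfInjective _ _ hι).trans (Subalgebra.equivOfEq _ _ himg)⟩
  refine ⟨f.comp E.symm.toAlgHom, E s, fun c => ?_⟩
  change f (E.symm (E s)) ≠ _
  rw [E.symm_apply_apply]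
  exact hf c

theorem coeff_mapDomain_of_inj {G Q : Type} (ψ : G → Q) (a : MonoidAlgebra k G) (g : G)
    (h : ∀ x, a.coeff x ≠ 0 → ψ x = ψ g → x = g) :
    (MonoidAlgebra.mapDomain ψ a).coeff (ψ g) = a.coeff g := by
  classical
  change (Finsupp.mapDomain ψ a.coeff) (ψ g) = _
  rw [Finsupp.mapDomain, Finsupp.sum, Finsupp.finsetSum_apply, Finset.sum_eq_single g]
  · simp
  · intro x hx hne
    exact Finsupp.single_eq_of_ne' fun e => hne (h x (Finsupp.mem_support_iff.mp hx) e)
  · intro hg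
    simp [Finsupp.notMem_support_iff.mp hg]

theorem bp_int : BP k (Multiplicative ℤ) := by
  rintro R - ⟨r, hr, g, hg, hrg⟩
  let E := (AddMonoidAlgebra.toMultiplicativeAlgEquiv (R := k) k ℤ).symm
  refine ⟨(E.toAlgHom : _ →ₐ[k] LaurentPolynomial k).comp R.val, ⟨r, hr⟩, fun c hc => hrg ?_⟩
  have h1 : E r = E (algebraMap k _ c) := by
    rw [E.commutes]
    exact hc
  rw [E.injective h1]
  change (Finsupp.single (1 : Multiplicative ℤ) c) g = 0
  exact Finsupp.single_eq_of_ne hg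

theorem exists_sep {Z G : Type} [Group Z] [Group.FG Z] (hc : ∀ a b : Z, a * b = b * a) (ht : TF Z)
    (T : Finset G) (ν : G → Z) : ∃ l : Z →* Multiplicative ℤ,
      ∀ x ∈ T, ∀ y ∈ T, l (ν x) = l (ν y) → ν x = ν y := by
  classical
  obtain ⟨l, hl⟩ := sep Z hc ht
    (((T ×ˢ T).image fun p => (ν p.1)⁻¹ * ν p.2).filter fun z => z ≠ 1)
    (fun x hx => (Finset.mem_filter.mp hx).2)
  refine ⟨l, fun x hx y hy h => ?_⟩
  by_contra hne
  refine hl ((ν x)⁻¹ * ν y) (Finset.mem_filter.mpr ⟨Finset.mem_image.mpr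
    ⟨(x, y), Finset.mem_product.mpr ⟨hx, hy⟩, rfl⟩, fun e => hne (inv_mul_eq_one.mp e)⟩) ?_
  rw [map_mul, map_inv, h, inv_mul_cancel]

variable (k) in
/-- The unit `1 + X`. -/
noncomputable def vv : (PowerSeries k)ˣ :=
  (isUnit_iff_constantCoeff.mpr (by simp) : IsUnit (1 + X : PowerSeries k)).unit

theorem vv_coe : (vv k : PowerSeries k) = 1 + X := rfl

theorem cc_vv (e : ℤ) : constantCoeff ((vv k ^ e : (PowerSeries k)ˣ) : PowerSeries k) = 1 := by
  have h1 : Units.map (constantCoeff (R := k)).toMonoidHom (vv k) = 1 := by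
    ext
    simp [vv_coe]
  have h2 := map_zpow (Units.map (constantCoeff (R := k)).toMonoidHom) (vv k) e
  rw [h1, one_zpow] at h2
  exact congrArg Units.val h2

theorem sum_vv_ne {G : Type} (T : Finset G) (c : G → k) (ν : G → ℤ) (g : G) (hg : g ∈ T)
    (hc : c g ≠ 0) (hν : ∀ x ∈ T, ν x = ν g → x = g) :
    ∑ x ∈ T, c x • ((vv k ^ ν x : (PowerSeries k)ˣ) : PowerSeries k) ≠ 0 := by
  classical
  intro h
  let M : ℤ := ∑ x ∈ T, |ν x|
  have hM : ∀ x ∈ T, 0 ≤ ν x + M := by
    intro x hx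
    have h1 : |ν x| ≤ M := Finset.single_le_sum (f := fun x => |ν x|) (fun _ _ => abs_nonneg _) hx
    have := neg_abs_le (ν x)
    linarith
  let P : Polynomial k := ∑ x ∈ T, Polynomial.monomial (ν x + M).toNat (c x)
  have h1 : ((Polynomial.taylor 1 P : Polynomial k) : PowerSeries k) = 0 := by
    have h2 := congrArg (· * ((vv k ^ M : (PowerSeries k)ˣ) : PowerSeries k)) h
    simp only [zero_mul, Finset.sum_mul] at h2
    rw [← h2, map_sum, ← Polynomial.coeToPowerSeries.ringHom_apply, map_sum]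
    refine Finset.sum_congr rfl fun x hx => ?_
    rw [smul_mul_assoc, ← Units.val_mul, ← zpow_add, ← Int.toNat_of_nonneg (hM x hx),
      zpow_natCast, Units.val_pow_eq_pow_val, vv_coe, Polynomial.taylor_monomial, Int.toNat_natCast]
    simp [smul_eq_C_mul, add_comm]
  have h2 : P = 0 := by
    apply Polynomial.taylor_injective 1
    rw [map_zero]
    exact Polynomial.coe_injective k (h1.trans Polynomial.coe_zero.symm)
  have h3 := congrArg (Polynomial.coeff · (ν g + M).toNat) h2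
  simp only [P, Polynomial.finsetSum_coeff, Polynomial.coeff_monomial,
    Polynomial.coeff_zero] at h3
  rw [Finset.sum_eq_single g] at h3
  · exact hc (by simpa using h3)
  · intro x hx hne
    rw [if_neg]
    intro e
    have := hM x hx
    have := hM g hg
    exact hne (hν x hx (by omega))
  · intro h
    exact absurd hg h

theorem central_step {H : Type} [Group H] (Z : Subgroup H) [Z.Normal] [Group.FG Z]
    (hZ : Z ≤ Subgroup.center H) (ht : TF Z) (hQ : BP k (H ⧸ Z)) (S : Finset (MonoidAlgebra k H))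
    (φ : H ⧸ Z →* Multiplicative ℤ) (a0 : MonoidAlgebra k H) (ha0 : a0 ∈ S) (h0 : H)
    (hh0 : a0.coeff h0 ≠ 0) (hφ : φ h0 ≠ 1) :
    NC k (Algebra.adjoin k (S : Set (MonoidAlgebra k H))) := by
  classical
  have hfg : (Algebra.adjoin k (S : Set (MonoidAlgebra k H))).FG := ⟨S, rfl⟩
  let π := QuotientGroup.mk' Z
  by_cases hS : ∀ a ∈ S, ∀ q, q ≠ 1 → (MonoidAlgebra.mapDomain π a).coeff q = 0
  swap
  · push Not at hS
    obtain ⟨a, ha, q, hq, h⟩ := hS
    exact hQ.transfer hfg ((MonoidAlgebra.mapDomainAlgHom k k π).comp (Subalgebra.val _))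
      ⟨a, Algebra.subset_adjoin ha⟩ q hq h
  have hmem : ∀ h : H, (π h).out⁻¹ * h ∈ Z := fun h =>
    QuotientGroup.eq.mp (QuotientGroup.out_eq' (π h))
  have hmem2 : ∀ q q' : H ⧸ Z, (q * q').out⁻¹ * (q.out * q'.out) ∈ Z := fun q q' =>
    QuotientGroup.eq.mp (by simp)
  let z : H → Z := fun h => ⟨_, hmem h⟩
  let c : H ⧸ Z → H ⧸ Z → Z := fun q q' => ⟨_, hmem2 q q'⟩
  have hz : ∀ h h', z (h * h') = z h * z h' * c (π h) (π h') := by
    intro h h'
    apply Subtype.ext
    have e1 := Subgroup.mem_center_iff.mp (hZ (hmem h))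
    have e2 := Subgroup.mem_center_iff.mp (hZ (hmem h'))
    change (π (h * h')).out⁻¹ * (h * h') = (π h).out⁻¹ * h * ((π h').out⁻¹ * h') *
      ((π h * π h').out⁻¹ * ((π h).out * (π h').out))
    rw [map_mul]
    generalize (π h * π h').out = s at *
    generalize (π h).out = s1 at *
    generalize (π h').out = s2 at *
    calc s⁻¹ * (h * h') = s⁻¹ * s1 * (s1⁻¹ * h) * s2 * (s2⁻¹ * h') := by group
      _ = (s1⁻¹ * h) * (s⁻¹ * s1 * s2 * (s2⁻¹ * h')) := by rw [e1 (s⁻¹ * s1)]; group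
      _ = _ := by rw [e2 (s⁻¹ * s1 * s2)]; group
  obtain ⟨l, hl⟩ := exists_sep (Z := Z)
    (fun a b => Subtype.ext (Subgroup.mem_center_iff.mp (hZ b.2) a.1)) ht a0.coeff.support z
  obtain ⟨σ, hσ⟩ : ∃ σ : ℝ, 0 < σ * ((φ h0).toAdd : ℝ) := by
    refine ⟨((φ h0).toAdd : ℝ), mul_self_pos.mpr ?_⟩
    exact_mod_cast hφ
  obtain ⟨f, r, q, hq, h⟩ := slope π
    (fun h => ((vv k ^ (l (z h)).toAdd : (PowerSeries k)ˣ) : PowerSeries k)) (fun _ => 1)
    (fun q q' => ((vv k ^ (l (c q q')).toAdd : (PowerSeries k)ˣ) : PowerSeries k))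
    (fun q => σ * ((φ q).toAdd : ℝ)) (fun _ => cc_vv _) (fun _ _ => cc_vv _)
    (by
      intro h h'
      simp only [hz, map_mul, toAdd_mul, zpow_add, Units.val_mul, rescale_one, RingHom.id_apply])
    (by
      intro q q'
      simp only [map_mul, toAdd_mul, Int.cast_add, mul_add])
    (fun κ _ => ⟨fun _ => 1, rfl, fun _ => one_ne_zero, by simp⟩) S hS a0 ha0 (π h0) hσ
    (by
      rw [Aa_apply]
      refine sum_vv_ne _ _ _ h0 (by simpa using hh0) hh0 ?_
      intro x hx e
      simp only [Finset.mem_filter] at hx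
      have h1 := congrArg Subtype.val (hl x hx.1 h0 (Finsupp.mem_support_iff.mpr hh0)
        (Multiplicative.toAdd.injective e))
      change (π x).out⁻¹ * x = (π h0).out⁻¹ * h0 at h1
      rw [hx.2] at h1
      exact mul_left_cancel h1)
  exact hQ.transfer hfg f r q hq h

theorem bp_comm {H : Type} [Group H] [Group.FG H] (hc : ∀ a b : H, a * b = b * a) (ht : TF H) :
    BP k H := by
  classical
  rintro R hR ⟨r, hr, g, hg, hrg⟩
  obtain ⟨l, hl⟩ := exists_sep hc ht (insert 1 r.coeff.support) id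
  have hgm : g ∈ insert 1 r.coeff.support :=
    Finset.mem_insert_of_mem (Finsupp.mem_support_iff.mpr hrg)
  refine bp_int.transfer hR ((MonoidAlgebra.mapDomainAlgHom k k l).comp R.val) ⟨r, hr⟩ (l g)
    (fun e => hg (hl g hgm 1 (Finset.mem_insert_self _ _) (e.trans (map_one l).symm))) ?_
  change (MonoidAlgebra.mapDomain l r).coeff (l g) ≠ 0
  rwa [coeff_mapDomain_of_inj l r g fun x hx e =>
    hl x (Finset.mem_insert_of_mem (Finsupp.mem_support_iff.mpr hx)) g hgm e]

theorem exists_gen_ne {H K : Type} [Group H] [Group K] {D : Set H} (hD : Subgroup.closure D = ⊤)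
    (φ : H →* K) (x : H) (hx : φ x ≠ 1) : ∃ y ∈ D, φ y ≠ 1 := by
  by_contra hc
  push Not at hc
  have : Subgroup.closure D ≤ φ.ker := (Subgroup.closure_le _).mpr hc
  exact hx (this (hD ▸ Subgroup.mem_top x))

theorem bp_nilp (n : ℕ) : ∀ (G : Type) [Group G] [Group.IsNilpotent G],
    Group.nilpotencyClass G ≤ n → TF G → BP k G := by
  induction n with
  | zero =>
    intro G _ _ hn _
    have : Subsingleton G := Group.nilpotencyClass_zero_iff_subsingleton.mp (Nat.le_zero.mp hn)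
    rintro R - ⟨r, -, g, hg, -⟩
    exact absurd (Subsingleton.elim _ _) hg
  | succ n ih =>
    intro G _ _ hn ht
    refine BP.of_gen fun H S hfg hS hex => ?_
    have htH := ht.sub H
    by_cases hQ : Nontrivial (H ⧸ Subgroup.center H)
    · have h1 : BP k (H ⧸ Subgroup.center H) := by
        refine ih _ ?_ htH.quot
        rw [Group.nilpotencyClass_quotient_center]
        have := Subgroup.nilpotencyClass_le H
        omega
      obtain ⟨φ, q, hq⟩ := exists_phi _ inferInstance htH.quot hQ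
      obtain ⟨x, rfl⟩ := QuotientGroup.mk_surjective q
      obtain ⟨y, ⟨a, ha, hy⟩, hφ⟩ := exists_gen_ne hS (φ.comp (QuotientGroup.mk' _)) x hq
      have := center_fg H
      exact central_step _ le_rfl (htH.sub _) h1 S φ a ha y hy hφ
    · rw [not_nontrivial_iff_subsingleton] at hQ
      obtain ⟨a, ha, h⟩ := hex
      exact bp_comm (fun a b => Subgroup.mem_center_iff.mp
        ((QuotientGroup.eq_one_iff b).mp (Subsingleton.elim _ _)) a) htH _ ⟨S, rfl⟩
        ⟨a, Algebra.subset_adjoin ha, h⟩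

theorem bp_res {G : Type} [Group G]
    (hG : ∀ g : G, g ≠ 1 → ∃ (N : Subgroup G) (_ : N.Normal), g ∉ N ∧
      Group.IsNilpotent (G ⧸ N) ∧ TF (G ⧸ N)) : BP k G := by
  classical
  rintro R hR ⟨r, hr, g, hg, hrg⟩
  choose N hN h1 h2 h3 using hG
  let T : Finset G := ((insert 1 r.coeff.support).image fun x => g⁻¹ * x).filter fun z => z ≠ 1
  let N' : T → Subgroup G := fun t => N t.1 (Finset.mem_filter.mp t.2).2
  have hN' : ∀ t, (N' t).Normal := fun t => hN _ _
  have hnil : ∀ t, Group.IsNilpotent (G ⧸ N' t) := fun t => h2 _ _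
  let ψ : G →* (∀ t : T, G ⧸ N' t) := MonoidHom.pi fun t => QuotientGroup.mk' (N' t)
  have hψ : ∀ x ∈ insert 1 r.coeff.support, ψ x = ψ g → x = g := by
    intro x hx e
    by_contra hne
    have hm : g⁻¹ * x ∈ T := Finset.mem_filter.mpr ⟨Finset.mem_image_of_mem _ hx,
      fun e => hne (inv_mul_eq_one.mp e).symm⟩
    exact h1 _ _ (QuotientGroup.eq.mp (congrFun e ⟨_, hm⟩).symm)
  have hP : BP k (∀ t : T, G ⧸ N' t) := bp_nilp _ _ le_rfl fun x n hn hx =>
    funext fun t => h3 _ _ (x t) n hn (congrFun hx t)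
  refine hP.transfer hR ((MonoidAlgebra.mapDomainAlgHom k k ψ).comp R.val) ⟨r, hr⟩ (ψ g)
    (fun e => hg (hψ 1 (Finset.mem_insert_self _ _) ((map_one ψ).trans e.symm)).symm) ?_
  change (MonoidAlgebra.mapDomain ψ r).coeff (ψ g) ≠ 0
  rwa [coeff_mapDomain_of_inj ψ r g fun x hx e =>
    hψ x (Finset.mem_insert_of_mem (Finsupp.mem_support_iff.mpr hx)) e]

end Pool.Agent.Lib.BG7
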