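import Mathlib
import Pool.Agent.Lib.BG7.Main

set_option autoImplicit false

namespace Pool.Agent.Lib.BG7

variable {k : Type} [Field k] [CharZero k]

theorem exists_eval {P : LaurentPolynomial k} (hP : P ≠ 0) :
    ∃ ev : LaurentPolynomial k →+* k, ev P ≠ 0 := by
  obtain ⟨n, p, hp⟩ := LaurentPolynomial.exists_T_pow P
  have h1 : p ≠ 0 := by
    rintro rfl
    rw [map_zero] at hp
    exact hP ((LaurentPolynomial.isUnit_T (n : ℤ)).mul_left_eq_zero.mp hp.symm)
  have h2 : p * Polynomial.X ≠ 0 := mul_ne_zero h1 Polynomial.X_ne_zero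
  obtain ⟨x, hx⟩ : ∃ x : k, (p * Polynomial.X).eval x ≠ 0 := by
    by_contra hc
    push Not at hc
    exact h2 (Polynomial.funext (by simpa using hc))
  rw [Polynomial.eval_mul, Polynomial.eval_X] at hx
  refine ⟨LaurentPolynomial.eval₂ (RingHom.id k) (Units.mk0 x (right_ne_zero_of_mul hx)), ?_⟩
  intro h
  have h3 := congrArg
    (LaurentPolynomial.eval₂ (RingHom.id k) (Units.mk0 x (right_ne_zero_of_mul hx))) hp
  rw [map_mul, h, zero_mul, LaurentPolynomial.eval₂_toLaurent] at h3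
  exact left_ne_zero_of_mul hx h3

theorem const_of_pow {x : LaurentPolynomial k} {n : ℕ} (hn : n ≠ 0) (h : x ^ n = 1) :
    ∃ c : k, x = LaurentPolynomial.C c := by
  let ev : LaurentPolynomial k →+* k := LaurentPolynomial.eval₂ (RingHom.id k) 1
  have hev : ∀ c, ev (LaurentPolynomial.C c) = c := fun c => LaurentPolynomial.eval₂_C _ _ c
  have h1 : ev x ^ n = 1 := by rw [← map_pow, h, map_one]
  have h0 : ev x ≠ 0 := by
    intro e
    rw [e, zero_pow hn] at h1
    exact zero_ne_one h1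
  have h3 := Commute.mul_geom_sum₂ (Commute.all x (LaurentPolynomial.C (ev x))) n
  rw [h, ← map_pow, h1, map_one, sub_self] at h3
  rcases mul_eq_zero.mp h3 with h4 | h4
  · exact ⟨_, sub_eq_zero.mp h4⟩
  · exfalso
    have h5 := congrArg ev h4
    rw [map_sum, map_zero] at h5
    have h6 : ∀ i ∈ Finset.range n,
        ev (x ^ i * LaurentPolynomial.C (ev x) ^ (n - 1 - i)) = ev x ^ (n - 1) := by
      intro i hi
      rw [map_mul, map_pow, map_pow, hev, ← pow_add]
      congr 1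
      have := Finset.mem_range.mp hi
      omega
    rw [Finset.sum_congr rfl h6, Finset.sum_const, Finset.card_range, nsmul_eq_mul] at h5
    exact mul_ne_zero (Nat.cast_ne_zero.mpr hn) (pow_ne_zero _ h0) h5

theorem seq_zero (a : ℕ → ℤ) (d : ℕ) (had : a d ≠ 0)
    (hroot : ∀ c : k, ∑ i ∈ Finset.range (d + 1), (a i : k) * c ^ i ≠ 0)
    (P : ℕ → LaurentPolynomial k) (h1 : ∀ i < d, ∀ j < d, P (i + 1) * P j = P (j + 1) * P i)
    (h2 : ∑ i ∈ Finset.range (d + 1), (a i : LaurentPolynomial k) * P i = 0) :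
    ∀ i ≤ d, P i = 0 := by
  have h3 : ∀ j < d, P j = 0 := by
    intro j hj
    by_contra hne
    obtain ⟨ev, hev⟩ := exists_eval hne
    have h4 : ∀ i ≤ d, ev (P i) = (ev (P (j + 1)) / ev (P j)) ^ i * ev (P 0) := by
      intro i hi
      induction i with
      | zero => simp
      | succ i ih =>
        have h5 := congrArg ev (h1 i (by omega) j hj)
        rw [map_mul, map_mul] at h5
        rw [pow_succ', mul_assoc, ← ih (by omega)]
        field_simp
        linear_combination h5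
    have h5 : ev (P 0) ≠ 0 := by
      intro e
      rw [h4 j hj.le, e, mul_zero] at hev
      exact hev rfl
    apply mul_ne_zero (hroot (ev (P (j + 1)) / ev (P j))) h5
    have h6 := congrArg ev h2
    rw [map_sum, map_zero] at h6
    rw [Finset.sum_mul, ← h6]
    refine Finset.sum_congr rfl fun i hi => ?_
    rw [map_mul, map_intCast, h4 i (by have := Finset.mem_range.mp hi; omega), mul_assoc]
  intro i hi
  rcases Nat.lt_or_eq_of_le hi with h | rfl
  · exact h3 i h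
  · rw [Finset.sum_range_succ, Finset.sum_eq_zero fun j hj => by
      rw [h3 j (Finset.mem_range.mp hj), mul_zero], zero_add] at h2
    refine (mul_eq_zero.mp h2).resolve_left ?_
    rw [← map_intCast (LaurentPolynomial.C : k →+* _)]
    intro e
    have := congrArg (LaurentPolynomial.eval₂ (RingHom.id k) 1) e
    rw [LaurentPolynomial.eval₂_C, map_zero] at this
    exact had (Int.cast_eq_zero.mp (this : ((a i : ℤ) : k) = 0))

section
variable {A K : Type} [Ring A] [Algebra k A] [AddCommGroup K] (R : Subalgebra k A)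
  (ρ : A →ₗ[k] LaurentPolynomial k) (g : K → A)

omit [CharZero k] in
theorem psi_rel (hρ : ∀ a ∈ R, ∀ b ∈ R, ρ (a * b) = ρ a * ρ b) (hρ1 : ρ 1 = 1)
    (hg : ∀ v w, g (v + w) = g v * g w) (hg0 : g 0 = 1) (s : A) (y : ℕ → K) (a : ℕ → ℤ) (d : ℕ)
    (hy : ∀ i ≤ d, g (y i) ∈ R ∧ g (-y i) ∈ R ∧ ρ (g (y i)) = 1 ∧ s * (g (y i) - 1) ∈ R)
    (hrel : ∑ i ∈ Finset.range (d + 1), a i • y i = 0) :
    ∑ i ∈ Finset.range (d + 1), (a i : LaurentPolynomial k) * ρ (s * (g (y i) - 1)) = 0 := by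
  have key : ∀ v w, s * (g (v + w) - 1) = s * (g v - 1) * g w + s * (g w - 1) := by
    intro v w
    rw [hg]
    noncomm_ring
  let W : AddSubgroup (K × LaurentPolynomial k) :=
    { carrier := {p | g p.1 ∈ R ∧ g (-p.1) ∈ R ∧ ρ (g p.1) = 1 ∧ s * (g p.1 - 1) ∈ R ∧
        ρ (s * (g p.1 - 1)) = p.2}
      zero_mem' := by
        simp only [Set.mem_ofPred_eq, Prod.fst_zero, neg_zero, hg0, sub_self, mul_zero, map_zero,
          Prod.snd_zero, hρ1, and_true]
        exact ⟨R.one_mem, R.one_mem, trivial, R.zero_mem⟩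
      add_mem' := by
        rintro ⟨v, p⟩ ⟨w, q⟩ ⟨a1, a2, a3, a4, a5⟩ ⟨b1, b2, b3, b4, b5⟩
        simp only [Set.mem_ofPred_eq, Prod.fst_add, Prod.snd_add] at *
        refine ⟨?_, ?_, ?_, ?_, ?_⟩
        · rw [hg]; exact R.mul_mem a1 b1
        · rw [neg_add, hg]; exact R.mul_mem a2 b2
        · rw [hg, hρ _ a1 _ b1, a3, b3, one_mul]
        · rw [key]; exact R.add_mem (R.mul_mem a4 b1) b4
        · rw [key, map_add, hρ _ a4 _ b1, a5, b3, b5, mul_one]
      neg_mem' := by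
        rintro ⟨v, p⟩ ⟨a1, a2, a3, a4, a5⟩
        simp only [Set.mem_ofPred_eq, Prod.fst_neg, Prod.snd_neg, neg_neg] at *
        have e1 : ρ (g (-v)) = 1 := by
          have := hρ _ a1 _ a2
          rw [← hg, add_neg_cancel, hg0, hρ1, a3, one_mul] at this
          exact this.symm
        have e2 : s * (g (-v) - 1) = -(s * (g v - 1) * g (-v)) := by
          have := key v (-v)
          rw [add_neg_cancel, hg0, sub_self, mul_zero] at this
          exact eq_neg_of_add_eq_zero_right this.symm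
        refine ⟨a2, a1, e1, ?_, ?_⟩
        · rw [e2]; exact R.neg_mem (R.mul_mem a4 a2)
        · rw [e2, map_neg, hρ _ a4 _ a2, a5, e1, mul_one] }
  have h1 : ∑ i ∈ Finset.range (d + 1), a i • (y i, ρ (s * (g (y i) - 1))) ∈ W := by
    refine W.sum_mem fun i hi => W.zsmul_mem ?_ _
    obtain ⟨b1, b2, b3, b4⟩ := hy i (by have := Finset.mem_range.mp hi; omega)
    exact ⟨b1, b2, b3, b4, rfl⟩
  have h2 := h1.2.2.2.2
  simp only [Prod.fst_sum, Prod.snd_sum, Prod.smul_fst, Prod.smul_snd, hrel, hg0, sub_self,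
    mul_zero, map_zero, zsmul_eq_mul] at h2
  exact h2.symm

omit [CharZero k] in
theorem z_rel (hρ : ∀ a ∈ R, ∀ b ∈ R, ρ (a * b) = ρ a * ρ b) (hρ1 : ρ 1 = 1)
    (hg : ∀ v w, g (v + w) = g v * g w) (hg0 : g 0 = 1) (x : ℕ → K) (a : ℕ → ℤ) (d : ℕ)
    (hx : ∀ i ≤ d, g (x i) ∈ R ∧ g (-x i) ∈ R)
    (hz : ∀ i < d, ρ (g (x (i + 1))) = ρ (g (x i)))
    (hrel : ∑ i ∈ Finset.range (d + 1), a i • x i = 0) :
    ∀ j ≤ d, ρ (g ((∑ i ∈ Finset.range (d + 1), a i) • x j)) = 1 := by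
  let W : AddSubgroup K :=
    { carrier := {v | g v ∈ R ∧ g (-v) ∈ R ∧ ρ (g v) = 1}
      zero_mem' := by
        simp only [Set.mem_ofPred_eq, neg_zero, hg0, hρ1, and_true]
        exact ⟨R.one_mem, R.one_mem⟩
      add_mem' := by
        rintro v w ⟨a1, a2, a3⟩ ⟨b1, b2, b3⟩
        refine ⟨?_, ?_, ?_⟩
        · rw [hg]; exact R.mul_mem a1 b1
        · rw [neg_add, hg]; exact R.mul_mem a2 b2
        · rw [hg, hρ _ a1 _ b1, a3, b3, one_mul]
      neg_mem' := by
        rintro v ⟨a1, a2, a3⟩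
        refine ⟨a2, by rwa [neg_neg], ?_⟩
        have := hρ _ a1 _ a2
        rw [← hg, add_neg_cancel, hg0, hρ1, a3, one_mul] at this
        exact this.symm }
  have h1 : ∀ i ≤ d, ρ (g (x i)) = ρ (g (x 0)) := by
    intro i hi
    induction i with
    | zero => rfl
    | succ i ih => rw [hz i (by omega), ih (by omega)]
  have h2 : ∀ i ≤ d, ∀ j ≤ d, x j - x i ∈ W := by
    intro i hi j hj
    refine ⟨?_, ?_, ?_⟩
    · rw [sub_eq_add_neg, hg]; exact R.mul_mem (hx j hj).1 (hx i hi).2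
    · rw [neg_sub, sub_eq_add_neg, hg]; exact R.mul_mem (hx i hi).1 (hx j hj).2
    · rw [sub_eq_add_neg, hg, hρ _ (hx j hj).1 _ (hx i hi).2, h1 j hj, ← h1 i hi,
        ← hρ _ (hx i hi).1 _ (hx i hi).2, ← hg, add_neg_cancel, hg0, hρ1]
  intro j hj
  have h3 : ∑ i ∈ Finset.range (d + 1), a i • (x j - x i) ∈ W :=
    W.sum_mem fun i hi => W.zsmul_mem (h2 i (by have := Finset.mem_range.mp hi; omega) j hj) _
  simp only [smul_sub, Finset.sum_sub_distrib, hrel, sub_zero, ← Finset.sum_smul] at h3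
  exact h3.2.2

end

theorem not_bp {G K : Type} [Group G] [AddCommGroup K] (ι : Multiplicative K →* G) (t : G)
    (x : ℕ → K) (hx : ∀ i, t * ι (.ofAdd (x i)) = ι (.ofAdd (x (i + 1))) * t)
    (h0 : ι (.ofAdd (x 0)) ≠ 1) (a : ℕ → ℤ) (d : ℕ) (hd : 0 < d) (had : a d ≠ 0)
    (hroot : ∀ c : k, ∑ i ∈ Finset.range (d + 1), (a i : k) * c ^ i ≠ 0)
    (hrel : ∑ i ∈ Finset.range (d + 1), a i • x i = 0) : ¬ BP k G := by
  classical
  intro hB
  let g : K → MonoidAlgebra k G := fun v => MonoidAlgebra.of k G (ι (.ofAdd v))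
  have hg : ∀ v w, g (v + w) = g v * g w := fun v w => by
    simp only [g, ofAdd_add, map_mul]
  have hg0 : g 0 = 1 := by simp only [g, ofAdd_zero, map_one]
  have hgc : ∀ v w, g v * g w = g w * g v := fun v w => by rw [← hg, ← hg, add_comm]
  set e : ℤ := ∑ i ∈ Finset.range (d + 1), a i with he
  have he0 : e ≠ 0 := by
    intro h
    apply hroot 1
    simp only [one_pow, mul_one]
    exact_mod_cast h
  let T := MonoidAlgebra.of k G t
  let T' := MonoidAlgebra.of k G t⁻¹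
  have hTT : T * T' = 1 := by simp only [T, T', ← map_mul, mul_inv_cancel, map_one]
  have hTT' : T' * T = 1 := by simp only [T, T', ← map_mul, inv_mul_cancel, map_one]
  have hTx : ∀ i, T * g (x i) = g (x (i + 1)) * T := fun i => by
    simp only [T, g, ← map_mul, hx]
  let y : ℕ → K := fun i => e • x i
  have hTy : ∀ i, T * (g (y i) - 1) = (g (y (i + 1)) - 1) * T := fun i => by
    have := SemiconjBy.zpow_right (hx i) e
    rw [mul_sub, sub_mul, mul_one, one_mul]
    simp only [T, g, y, ← map_mul, ofAdd_zsmul, map_zpow]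
    rw [this]
  have hTy' : ∀ i, T' * (g (y (i + 1)) - 1) = (g (y i) - 1) * T' := fun i => by
    calc T' * (g (y (i + 1)) - 1) = T' * ((g (y (i + 1)) - 1) * T) * T' := by
          rw [mul_assoc, mul_assoc, hTT, mul_one]
      _ = _ := by rw [← hTy, ← mul_assoc, hTT', one_mul]
  have hcm : ∀ v w, (g v - 1) * (g w - 1) = (g w - 1) * (g v - 1) := fun v w => by
    simp only [mul_sub, sub_mul, hgc v w, mul_one, one_mul]
    abel
  let S : Finset (MonoidAlgebra k G) := (Finset.range (d + 1)).biUnion fun i =>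
    {g (x i), g (-x i), T * (g (y i) - 1), T' * (g (y i) - 1)}
  have hS : ∀ i ≤ d, g (x i) ∈ S ∧ g (-x i) ∈ S ∧ T * (g (y i) - 1) ∈ S ∧
      T' * (g (y i) - 1) ∈ S := by
    intro i hi
    refine ⟨?_, ?_, ?_, ?_⟩ <;>
      exact Finset.mem_biUnion.mpr ⟨i, Finset.mem_range.mpr (by omega), by simp⟩
  set R := Algebra.adjoin k (S : Set (MonoidAlgebra k G)) with hR
  have hm : ∀ a ∈ S, a ∈ R := fun a ha => Algebra.subset_adjoin ha
  obtain ⟨f, r, hr⟩ := hB R ⟨S, rfl⟩ ⟨g (x 0), hm _ (hS 0 (Nat.zero_le _)).1, _, h0, by simp [g]⟩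
  let ρ : MonoidAlgebra k G →ₗ[k] LaurentPolynomial k :=
    Classical.choose (LinearMap.exists_extend (p := R.toSubmodule) f.toLinearMap)
  have hρf : ∀ a (ha : a ∈ R), ρ a = f ⟨a, ha⟩ := fun a ha =>
    DFunLike.congr_fun
      (Classical.choose_spec (LinearMap.exists_extend (p := R.toSubmodule) f.toLinearMap)) ⟨a, ha⟩
  have hρ : ∀ a ∈ R, ∀ b ∈ R, ρ (a * b) = ρ a * ρ b := fun a ha b hb => by
    rw [hρf _ (R.mul_mem ha hb), hρf _ ha, hρf _ hb, ← map_mul]
    rfl
  have hρ1 : ρ 1 = 1 := by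
    rw [hρf _ R.one_mem]
    exact map_one f
  have hX : ∀ i ≤ d, g (x i) ∈ R ∧ g (-x i) ∈ R := fun i hi =>
    ⟨hm _ (hS i hi).1, hm _ (hS i hi).2.1⟩
  have hpow : ∀ v, g v ∈ R → ∀ n : ℕ, g (n • v) ∈ R ∧ ρ (g (n • v)) = ρ (g v) ^ n := by
    intro v hv n
    induction n with
    | zero => rw [zero_smul, hg0, hρ1, pow_zero]; exact ⟨R.one_mem, rfl⟩
    | succ n ih =>
      rw [succ_nsmul, hg, hρ _ ih.1 _ hv, ih.2, pow_succ]
      exact ⟨R.mul_mem ih.1 hv, rfl⟩
  have hzs : ∀ v, g v ∈ R → g (-v) ∈ R → ∀ n : ℤ, g (n • v) ∈ R := by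
    intro v h1 h2 n
    obtain ⟨m, rfl | rfl⟩ := n.eq_nat_or_neg
    · rw [natCast_zsmul]; exact (hpow v h1 m).1
    · rw [neg_smul, ← smul_neg, natCast_zsmul]; exact (hpow _ h2 m).1
  have hY : ∀ i ≤ d, g (y i) ∈ R ∧ g (-y i) ∈ R := fun i hi =>
    ⟨hzs _ (hX i hi).1 (hX i hi).2 e, by
      rw [← neg_smul]; exact hzs _ (hX i hi).1 (hX i hi).2 _⟩
  have hy1 : ∀ j ≤ d, ρ (g (y j)) = 1 := by
    by_cases hc : ∃ j ≤ d, ρ (T * (g (y j) - 1)) ≠ 0
    · obtain ⟨j, hj, hne⟩ := hc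
      refine z_rel R ρ g hρ hρ1 hg hg0 x a d hX (fun i hi => ?_) hrel
      have e1 : g (x (i + 1)) * (T * (g (y j) - 1)) = T * (g (y j) - 1) * g (x i) := by
        rw [← mul_assoc, ← hTx, mul_assoc, mul_assoc, mul_sub, sub_mul, hgc, mul_one, one_mul]
      have e2 := congrArg ρ e1
      rw [hρ _ (hX _ hi).1 _ (hm _ (hS j hj).2.2.1), hρ _ (hm _ (hS j hj).2.2.1) _ (hX i hi.le).1,
        mul_comm] at e2
      exact mul_left_cancel₀ hne e2
    · push Not at hc
      have key : ∀ j ≤ d, ρ ((g (y j) - 1) * (g (y j) - 1)) = 0 → ρ (g (y j)) = 1 := by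
        intro j hj h
        have h1 := R.sub_mem (hY j hj).1 R.one_mem
        rw [hρ _ h1 _ h1, mul_self_eq_zero, map_sub, hρ1] at h
        exact sub_eq_zero.mp h
      intro j hj
      apply key j hj
      rcases Nat.lt_or_eq_of_le hj with h | h
      · have e1 : (g (y j) - 1) * (g (y j) - 1)
            = T' * (g (y (j + 1)) - 1) * (T * (g (y j) - 1)) := by
          rw [hTy', mul_assoc, ← mul_assoc T', hTT', one_mul]
        rw [e1, hρ _ (hm _ (hS _ h).2.2.2) _ (hm _ (hS _ hj).2.2.1), hc j hj, mul_zero]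
      · obtain ⟨i, rfl⟩ : ∃ i, j = i + 1 := ⟨j - 1, by omega⟩
        have e1 : (g (y (i + 1)) - 1) * (g (y (i + 1)) - 1)
            = T * (g (y i) - 1) * (T' * (g (y (i + 1)) - 1)) := by
          rw [hTy, mul_assoc, ← mul_assoc T, hTT, one_mul]
        rw [e1, hρ _ (hm _ (hS _ (by omega)).2.2.1) _ (hm _ (hS _ hj).2.2.2), hc i (by omega),
          zero_mul]
  have hrely : ∑ i ∈ Finset.range (d + 1), a i • y i = 0 := by
    simp only [y, smul_comm (a _) e, ← Finset.smul_sum, hrel, smul_zero]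
  have hP : ∀ i ≤ d, ρ (T * (g (y i) - 1)) = 0 := by
    refine seq_zero a d had hroot _ (fun i hi j hj => ?_) (psi_rel R ρ g hρ hρ1 hg hg0 T y a d
      (fun i hi => ⟨(hY i hi).1, (hY i hi).2, hy1 i hi, hm _ (hS i hi).2.2.1⟩) hrely)
    rw [← hρ _ (hm _ (hS _ hi).2.2.1) _ (hm _ (hS _ hj.le).2.2.1),
      ← hρ _ (hm _ (hS _ hj).2.2.1) _ (hm _ (hS _ hi.le).2.2.1)]
    congr 1
    calc T * (g (y (i + 1)) - 1) * (T * (g (y j) - 1))
        = T * ((g (y (i + 1)) - 1) * (g (y (j + 1)) - 1)) * T := by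
          rw [hTy j]; simp only [mul_assoc]
      _ = _ := by rw [hcm, hTy i]; simp only [mul_assoc]
  have hP' : ∀ i ≤ d, ρ (T' * (g (y i) - 1)) = 0 := by
    refine seq_zero a d had hroot _ (fun i hi j hj => ?_) (psi_rel R ρ g hρ hρ1 hg hg0 T' y a d
      (fun i hi => ⟨(hY i hi).1, (hY i hi).2, hy1 i hi, hm _ (hS i hi).2.2.2⟩) hrely)
    rw [mul_comm (ρ _) (ρ (T' * (g (y j) - 1))), mul_comm (ρ _) (ρ (T' * (g (y i) - 1))),
      ← hρ _ (hm _ (hS _ hj.le).2.2.2) _ (hm _ (hS _ hi).2.2.2),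
      ← hρ _ (hm _ (hS _ hi.le).2.2.2) _ (hm _ (hS _ hj).2.2.2)]
    congr 1
    calc T' * (g (y j) - 1) * (T' * (g (y (i + 1)) - 1))
        = T' * ((g (y j) - 1) * (g (y i) - 1)) * T' := by
          rw [hTy' i]; simp only [mul_assoc]
      _ = _ := by rw [hcm, hTy' j]; simp only [mul_assoc]
  have hconst : ∀ v, g v ∈ R → g (-v) ∈ R → ρ (g (e • v)) = 1 →
      (∃ c, ρ (g v) = LaurentPolynomial.C c) ∧ ∃ c, ρ (g (-v)) = LaurentPolynomial.C c := by
    intro v h1 h2 h3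
    have h4 : ρ (g v) * ρ (g (-v)) = 1 := by rw [← hρ _ h1 _ h2, ← hg, add_neg_cancel, hg0, hρ1]
    obtain ⟨m, hm | hm⟩ := e.eq_nat_or_neg
    · have hm0 : m ≠ 0 := by rintro rfl; exact he0 hm
      rw [hm, natCast_zsmul, (hpow v h1 m).2] at h3
      refine ⟨const_of_pow hm0 h3, const_of_pow hm0 ?_⟩
      rw [← one_mul (ρ (g (-v)) ^ m), ← h3, ← mul_pow, h4, one_pow, h3]
    · have hm0 : m ≠ 0 := by rintro rfl; exact he0 hm
      rw [hm, neg_smul, ← smul_neg, natCast_zsmul, (hpow _ h2 m).2] at h3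
      refine ⟨const_of_pow hm0 ?_, const_of_pow hm0 h3⟩
      rw [← mul_one (ρ (g v) ^ m), ← h3, ← mul_pow, h4, one_pow, h3]
  have hall : ∀ a ∈ R, ∃ c, ρ a = LaurentPolynomial.C c := by
    intro a ha
    induction ha using Algebra.adjoin_induction with
    | mem a ha =>
      obtain ⟨i, hi, ha⟩ := Finset.mem_biUnion.mp ha
      have hi' : i ≤ d := by have := Finset.mem_range.mp hi; omega
      have := hconst _ (hX i hi').1 (hX i hi').2 (hy1 i hi')
      simp only [Finset.mem_insert, Finset.mem_singleton] at ha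
      rcases ha with rfl | rfl | rfl | rfl
      · exact this.1
      · exact this.2
      · exact ⟨0, by rw [hP i hi', map_zero]⟩
      · exact ⟨0, by rw [hP' i hi', map_zero]⟩
    | algebraMap c =>
      exact ⟨c, by rw [Algebra.algebraMap_eq_smul_one, map_smul, hρ1,
        LaurentPolynomial.smul_eq_C_mul, mul_one]⟩
    | add a b _ _ ha hb =>
      obtain ⟨c, hc⟩ := ha
      obtain ⟨c', hc'⟩ := hb
      exact ⟨c + c', by rw [map_add, hc, hc', map_add]⟩
    | mul a b ha' hb' ha hb =>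
      obtain ⟨c, hc⟩ := ha
      obtain ⟨c', hc'⟩ := hb
      exact ⟨c * c', by rw [hρ _ ha' _ hb', hc, hc', map_mul]⟩
  obtain ⟨c, hc⟩ := hall r.1 r.2
  exact hr c ((hρf _ r.2).symm.trans hc)

end Pool.Agent.Lib.BG7
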