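import Mathlib
import Pool.Agent.Lib.BG7.Main

set_option autoImplicit false

namespace Pool.Agent.Lib.BG7

open PowerSeries

variable {k : Type} [Field k]

theorem tri_add (a b : ℤ) :
    (a + b) * (a + b - 1) / 2 = a * (a - 1) / 2 + b * (b - 1) / 2 + a * b := by
  have h1 := Int.mul_ediv_cancel' (Int.even_mul_pred_self a).two_dvd
  have h2 := Int.mul_ediv_cancel' (Int.even_mul_pred_self b).two_dvd
  have h3 := Int.mul_ediv_cancel' (Int.even_mul_pred_self (a + b)).two_dvd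
  nlinarith

theorem exists_cob (lam : kˣ) (σ κ : ℝ) (hκ : 0 < κ) : ∃ b : ℤ → kˣ, b 0 = 1 ∧
    ∀ (e1 e2 : ℤ) (j1 j2 : ℕ), κ * j1 = σ * e1 → κ * j2 = σ * e2 →
      b (e1 + e2) * (lam ^ e1) ^ j2 = b e1 * b e2 := by
  let E : AddSubgroup ℤ :=
    { carrier := {e | ∃ j : ℤ, κ * j = σ * e}
      zero_mem' := ⟨0, by simp⟩
      add_mem' := by
        rintro a b ⟨i, hi⟩ ⟨j, hj⟩
        exact ⟨i + j, by push_cast; linarith⟩
      neg_mem' := by
        rintro a ⟨i, hi⟩
        exact ⟨-i, by push_cast; linarith⟩ }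
  obtain ⟨e0, he0⟩ := Int.subgroup_cyclic E
  obtain ⟨j0, hj0⟩ : e0 ∈ E := he0 ▸ AddSubgroup.subset_closure rfl
  have key : ∀ (e : ℤ) (j : ℕ), κ * j = σ * e → ∃ m : ℤ, e = m * e0 ∧ (j : ℤ) = m * j0 := by
    intro e j h
    have h1 : e ∈ E := ⟨j, by exact_mod_cast h⟩
    rw [he0, AddSubgroup.mem_closure_singleton] at h1
    obtain ⟨m, rfl⟩ := h1
    refine ⟨m, by simp, ?_⟩
    have h2 : κ * j = κ * ((m * j0 : ℤ) : ℝ) := by
      rw [h]
      simp only [smul_eq_mul, Int.cast_mul]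
      linear_combination (-(m : ℝ)) * hj0
    exact_mod_cast mul_left_cancel₀ hκ.ne' h2
  refine ⟨fun e => lam ^ (-(e0 * j0 * (e / e0 * (e / e0 - 1) / 2))), by simp, ?_⟩
  intro e1 e2 j1 j2 h1 h2
  obtain ⟨m1, rfl, -⟩ := key e1 j1 h1
  obtain ⟨m2, rfl, hm2⟩ := key e2 j2 h2
  simp only
  rw [← zpow_natCast, ← zpow_mul, ← zpow_add, ← zpow_add, hm2]
  congr 1
  by_cases h0 : e0 = 0
  · simp [h0]
  · rw [← add_mul, Int.mul_ediv_cancel _ h0, Int.mul_ediv_cancel _ h0, Int.mul_ediv_cancel _ h0,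
      tri_add]
    ring

variable [CharZero k]

theorem sum_exp_ne {G : Type} (T : Finset G) (c : G → k) (ν : G → k) (g : G) (hg : g ∈ T)
    (hc : c g ≠ 0) (hν : ∀ x ∈ T, ν x = ν g → x = g) :
    ∑ x ∈ T, c x • rescale (ν x) (exp k) ≠ 0 := by
  classical
  intro h
  have h1 : ∀ j : ℕ, ∑ x ∈ T, c x * ν x ^ j = 0 := by
    intro j
    have h2 := congrArg (coeff j) h
    simp only [map_sum, map_smul, coeff_rescale, smul_eq_mul, map_zero, ← mul_assoc,
      ← Finset.sum_mul] at h2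
    refine (mul_eq_zero.mp h2).resolve_right ?_
    rw [coeff_exp]
    exact (map_ne_zero _).mpr (by positivity)
  have h2 : ∀ P : Polynomial k, ∑ x ∈ T, c x * P.eval (ν x) = 0 := by
    intro P
    induction P using Polynomial.induction_on' with
    | add p q hp hq => simp only [Polynomial.eval_add, mul_add, Finset.sum_add_distrib, hp, hq,
        add_zero]
    | monomial n a =>
      simp only [Polynomial.eval_monomial, mul_left_comm (c _) a, ← Finset.mul_sum, h1, mul_zero]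
  have h3 := h2 (∏ x ∈ T.erase g, (Polynomial.X - Polynomial.C (ν x)))
  simp only [Polynomial.eval_prod, Polynomial.eval_sub, Polynomial.eval_X,
    Polynomial.eval_C] at h3
  rw [Finset.sum_eq_single g] at h3
  · refine mul_ne_zero hc (Finset.prod_ne_zero_iff.mpr fun x hx e => ?_) h3
    rw [Finset.mem_erase] at hx
    exact hx.1 (hν x hx.2 (sub_eq_zero.mp e).symm)
  · intro x hx hne
    rw [Finset.prod_eq_zero (Finset.mem_erase.mpr ⟨hne, hx⟩) (sub_self _), mul_zero]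
  · intro h
    exact absurd hg h

theorem cc_exp (a : k) : constantCoeff (rescale a (exp k)) = 1 := by
  rw [← coeff_zero_eq_constantCoeff_apply, coeff_rescale]
  simp

theorem twisted_step {H Q : Type} [Group H] [Group Q] (π : H →* Q) (hQ : BP k Q)
    (d : Q →* Multiplicative ℤ) (lam : kˣ) (S : Finset (MonoidAlgebra k H))
    (a0 : MonoidAlgebra k H) (ha0 : a0 ∈ S) (h0 : H) (hh0 : a0.coeff h0 ≠ 0) (hd : d (π h0) ≠ 1)
    (hl : ∀ F : Finset H, (∀ x ∈ F, π x = 1 ∧ x ≠ 1) → ∃ l : H → k,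
      (∀ x y, π x = 1 → π y = 1 → l (x * y) = l x + l y) ∧
      (∀ h x, π x = 1 → l (h * x * h⁻¹) = l x * (lam ^ (d (π h)).toAdd : kˣ)) ∧
      ∀ x ∈ F, l x ≠ 0) :
    NC k (Algebra.adjoin k (S : Set (MonoidAlgebra k H))) := by
  classical
  have hfg : (Algebra.adjoin k (S : Set (MonoidAlgebra k H))).FG := ⟨S, rfl⟩
  by_cases hS : ∀ a ∈ S, ∀ q, q ≠ 1 → (MonoidAlgebra.mapDomain π a).coeff q = 0
  swap
  · push Not at hS
    obtain ⟨a, ha, q, hq, h⟩ := hS
    exact hQ.transfer hfg ((MonoidAlgebra.mapDomainAlgHom k k π).comp (Subalgebra.val _))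
      ⟨a, Algebra.subset_adjoin ha⟩ q hq h
  let s : Q → H := Function.invFun π
  have hs : ∀ h, π (s (π h)) = π h := fun h => Function.invFun_eq ⟨h, rfl⟩
  have hz : ∀ h, π (h * (s (π h))⁻¹) = 1 := fun h => by rw [map_mul, map_inv, hs, mul_inv_cancel]
  obtain ⟨l, hadd, hconj, hne⟩ := hl
    (((a0.coeff.support.filter fun x => π x = π h0).erase h0).image fun x => x * h0⁻¹) (by
      intro x hx
      obtain ⟨y, hy, rfl⟩ := Finset.mem_image.mp hx
      rw [Finset.mem_erase, Finset.mem_filter] at hy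
      exact ⟨by rw [map_mul, map_inv, hy.2.2, mul_inv_cancel],
        fun e => hy.1 (mul_inv_eq_one.mp e)⟩)
  obtain ⟨σ, hσ⟩ : ∃ σ : ℝ, 0 < σ * ((d (π h0)).toAdd : ℝ) := by
    refine ⟨((d (π h0)).toAdd : ℝ), mul_self_pos.mpr ?_⟩
    exact_mod_cast hd
  obtain ⟨f, r, q, hq, h⟩ := slope π
    (fun h => rescale (l (h * (s (π h))⁻¹)) (exp k)) (fun q => (lam ^ (d q).toAdd : kˣ))
    (fun q q' => rescale (l (s q * s q' * (s (q * q'))⁻¹)) (exp k))
    (fun q => σ * ((d q).toAdd : ℝ)) (fun _ => cc_exp _) (fun _ _ => cc_exp _)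
    (by
      intro h h'
      have e1 : h * h' * (s (π (h * h')))⁻¹ = h * (s (π h))⁻¹ *
          (s (π h) * (h' * (s (π h'))⁻¹) * (s (π h))⁻¹) *
          (s (π h) * s (π h') * (s (π h * π h'))⁻¹) := by
        rw [map_mul]
        group
      have e2 : π (s (π h) * (h' * (s (π h'))⁻¹) * (s (π h))⁻¹) = 1 := by
        rw [map_mul, map_mul, hz, mul_one, map_inv, mul_inv_cancel]
      have e3 : π (s (π h) * s (π h') * (s (π h * π h'))⁻¹) = 1 := by
        rw [map_mul, map_mul, map_inv, hs, hs, ← map_mul π h, hs, mul_inv_cancel]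
      rw [rescale_rescale, exp_mul_exp_eq_exp_add, exp_mul_exp_eq_exp_add, e1,
        hadd _ _ (by rw [map_mul, hz, e2, mul_one]) e3, hadd _ _ (hz h) e2, hconj _ _ (hz h'), hs])
    (by
      intro q q'
      simp only [map_mul, toAdd_mul, Int.cast_add, mul_add])
    (fun κ hκ => by
      obtain ⟨b, hb0, hb⟩ := exists_cob lam σ κ hκ
      refine ⟨fun q => b (d q).toAdd, by simp [hb0], fun q => Units.ne_zero _, ?_⟩
      intro q1 q2 j1 j2 h1 h2
      simp only [map_mul, toAdd_mul]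
      exact_mod_cast congrArg Units.val (hb _ _ j1 j2 h1 h2))
    S hS a0 ha0 (π h0) hσ
    (by
      rw [Aa_apply]
      refine sum_exp_ne _ _ _ h0 (by simpa using hh0) hh0 ?_
      intro x hx e
      simp only [Finset.mem_filter] at hx
      by_contra hx0
      refine hne (x * h0⁻¹) (Finset.mem_image.mpr ⟨x, Finset.mem_erase.mpr
        ⟨hx0, Finset.mem_filter.mpr hx⟩, rfl⟩) ?_
      have e1 : x * (s (π x))⁻¹ = x * h0⁻¹ * (h0 * (s (π h0))⁻¹) := by
        rw [hx.2]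
        group
      rw [e1, hadd _ _ (by rw [map_mul, map_inv, hx.2, mul_inv_cancel]) (hz h0)] at e
      exact add_eq_right.mp e)
  exact hQ.transfer hfg f r q hq h

end Pool.Agent.Lib.BG7
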