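import Mathlib
import Pool.Agent.Lib.BG7.Twist

set_option autoImplicit false

namespace Pool.Agent.Lib.BG7

open Polynomial

variable {k : Type} [Field k]

theorem BP.of_injective {H Q : Type} [Group H] [Group Q] (hQ : BP k Q) (j : H →* Q)
    (hj : Function.Injective j) : BP k H := by
  rintro R hR ⟨r, hr, g, hg, hrg⟩
  refine hQ.transfer hR ((MonoidAlgebra.mapDomainAlgHom k k j).comp R.val) ⟨r, hr⟩ (j g)
    (fun e => hg (hj (e.trans (map_one j).symm))) ?_
  change (MonoidAlgebra.mapDomain j r).coeff (j g) ≠ 0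
  rwa [coeff_mapDomain_of_inj j r g fun x _ e => hj e]

variable [CharZero k] {V : Type} [AddCommGroup V] [Module ℚ V]

theorem aeval_comm (σ : (Module.End ℚ V)ˣ) (f : ℚ[X]) (e : ℤ) (v : V) :
    aeval σ.val f ((σ ^ e).val v) = (σ ^ e).val (aeval σ.val f v) := by
  have h1 : Commute (aeval σ.val f) σ.val := by
    have : Commute (aeval σ.val f) (aeval σ.val (X : ℚ[X])) := (Commute.all f X).map _
    rwa [aeval_X] at this
  exact DFunLike.congr_fun (h1.units_zpow_right e).eq v

theorem exists_eigen (σ : (Module.End ℚ V)ˣ) (f : ℚ[X]) (hf : Irreducible f) (lam : kˣ)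
    (hl : aeval (lam : k) f = 0) (F : Finset V) (hF : ∀ v ∈ F, aeval σ.val f v = 0 ∧ v ≠ 0) :
    ∃ L : V → k, (∀ v w, aeval σ.val f v = 0 → aeval σ.val f w = 0 → L (v + w) = L v + L w) ∧
      (∀ (e : ℤ) v, aeval σ.val f v = 0 → L ((σ ^ e).val v) = L v * (lam ^ e : kˣ)) ∧
      ∀ v ∈ F, L v ≠ 0 := by
  classical
  have : (Ideal.span {f}).IsMaximal := PrincipalIdealRing.isMaximal_of_irreducible hf
  let W := Submodule.torsionBy ℚ[X] (Module.AEval' σ.val) f
  let inst : Field (ℚ[X] ⧸ Ideal.span {f}) := Ideal.Quotient.field _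
  have : Infinite (ℚ[X] ⧸ Ideal.span {f}) :=
    Infinite.of_injective _ (algebraMap ℚ (ℚ[X] ⧸ Ideal.span {f})).injective
  have hW : ∀ v, aeval σ.val f v = 0 → Module.AEval'.of σ.val v ∈ W := by
    intro v hv
    rw [Submodule.mem_torsionBy_iff, ← Module.AEval.of_aeval_smul]
    change Module.AEval'.of σ.val (aeval σ.val f v) = 0
    rw [hv, map_zero]
  obtain ⟨μ, hμ⟩ := Module.exists_dual_forall_apply_ne_zero (K := ℚ[X] ⧸ Ideal.span {f}) (M := W)
    (fun v : F => ⟨_, hW v.1 (hF _ v.2).1⟩) (fun v h => (hF _ v.2).2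
      ((Module.AEval'.of σ.val).map_eq_zero_iff.mp (congrArg Subtype.val h)))
  let emb : (ℚ[X] ⧸ Ideal.span {f}) →+* k :=
    Ideal.Quotient.lift _ (aeval (lam : k)).toRingHom (by
      intro g hg
      obtain ⟨y, rfl⟩ := Ideal.mem_span_singleton.mp hg
      change aeval (lam : k) (f * y) = 0
      rw [map_mul, hl, zero_mul])
  have hemb : emb (Ideal.Quotient.mk _ X) = lam := aeval_X (lam : k)
  let L : V → k := fun v => if h : aeval σ.val f v = 0 then emb (μ ⟨_, hW v h⟩) else 0
  have hL : ∀ v (h : aeval σ.val f v = 0), L v = emb (μ ⟨_, hW v h⟩) := fun v h => dif_pos h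
  have hst : ∀ (e : ℤ) v, aeval σ.val f v = 0 → aeval σ.val f ((σ ^ e).val v) = 0 := by
    intro e v hv
    rw [aeval_comm, hv, map_zero]
  have h1 : ∀ v, aeval σ.val f v = 0 → L (σ.val v) = L v * lam := by
    intro v hv
    have hv' : aeval σ.val f (σ.val v) = 0 := by simpa using hst 1 v hv
    have e1 : (⟨_, hW _ hv'⟩ : W) = Ideal.Quotient.mk (Ideal.span {f}) X • (⟨_, hW v hv⟩ : W) :=
      Subtype.ext (Module.AEval'.X_smul_of σ.val v).symm
    rw [hL _ hv', hL _ hv, e1, map_smul, smul_eq_mul, map_mul, hemb, mul_comm]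
  refine ⟨L, ?_, ?_, ?_⟩
  · intro v w hv hw
    have h : aeval σ.val f (v + w) = 0 := by rw [map_add, hv, hw, add_zero]
    rw [hL _ h, hL _ hv, hL _ hw, ← map_add, ← map_add]
    congr 2
  · intro e v hv
    induction e using Int.induction_on with
    | zero => simp
    | succ n ih =>
      rw [add_comm, zpow_add, zpow_add, zpow_one, zpow_one, Units.val_mul, Module.End.mul_apply,
        h1 _ (hst _ v hv), ih, Units.val_mul]
      ring
    | pred n ih =>
      have e1 : (σ ^ (-(n : ℤ))).val v = σ.val ((σ ^ (-(n : ℤ) - 1)).val v) := by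
        rw [← Module.End.mul_apply, ← Units.val_mul, ← zpow_one_add]
        congr 3
        ring
      rw [e1, h1 _ (hst _ v hv)] at ih
      rw [zpow_sub_one lam, Units.val_mul, ← mul_assoc, ← ih, mul_assoc, Units.mul_inv, mul_one]
  · intro v hv
    rw [hL v (hF v hv).1]
    exact (map_ne_zero emb).mpr (hμ ⟨v, hv⟩)

/-- Linear automorphisms as automorphisms of the multiplicative copy. -/
def toAut : (Module.End ℚ V)ˣ →* MulAut (Multiplicative V) where
  toFun u :=
    { toFun := fun v => .ofAdd (u.val v.toAdd)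
      invFun := fun v => .ofAdd (u.inv v.toAdd)
      left_inv := fun v => DFunLike.congr_fun u.inv_val v.toAdd
      right_inv := fun v => DFunLike.congr_fun u.val_inv v.toAdd
      map_mul' := fun v w => map_add u.val v.toAdd w.toAdd }
  map_one' := rfl
  map_mul' _ _ := rfl

/-- The semidirect product of `V` by the infinite cyclic group acting through `σ`. -/
abbrev Gam (σ : (Module.End ℚ V)ˣ) : Type :=
  Multiplicative V ⋊[toAut.comp (zpowersHom _ σ)] Multiplicative ℤ

theorem act_apply (σ : (Module.End ℚ V)ˣ) (e : Multiplicative ℤ) (v : Multiplicative V) :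
    (toAut.comp (zpowersHom _ σ)) e v = .ofAdd ((σ ^ e.toAdd).val v.toAdd) := rfl

theorem left_mul_of (σ : (Module.End ℚ V)ˣ) (x y : Gam σ) (hx : x.right = 1) :
    (x * y).left.toAdd = x.left.toAdd + y.left.toAdd := by
  rw [SemidirectProduct.mul_left, hx, map_one]
  rfl

theorem left_conj (σ : (Module.End ℚ V)ˣ) (g x : Gam σ) (hx : x.right = 1) :
    (g * x * g⁻¹).left.toAdd = (σ ^ g.right.toAdd).val x.left.toAdd := by
  rw [SemidirectProduct.mul_left, SemidirectProduct.mul_left, SemidirectProduct.mul_right, hx,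
    mul_one, SemidirectProduct.inv_left, ← MulAut.mul_apply, ← map_mul, mul_inv_cancel, map_one,
    MulAut.one_apply, mul_comm g.left, mul_inv_cancel_right]
  rfl

/-- The endomorphism induced by a polynomial in `σ`. -/
noncomputable def Phi (σ : (Module.End ℚ V)ˣ) (f : ℚ[X]) : Gam σ →* Gam σ :=
  SemidirectProduct.map (AddMonoidHom.toMultiplicative (aeval σ.val f).toAddMonoidHom)
    (MonoidHom.id _) fun e => MonoidHom.ext fun v => aeval_comm σ f e.toAdd v.toAdd

theorem bp_semi (σ : (Module.End ℚ V)ˣ) (p : ℚ[X]) : p ≠ 0 →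
    (∀ f, Irreducible f → f ∣ p → ∃ lam : kˣ, aeval (lam : k) f = 0) →
    ∀ (H : Type) [Group H] (j : H →* Gam σ), Function.Injective j →
      (∀ h, (j h).right = 1 → aeval σ.val p (j h).left.toAdd = 0) → BP k H := by
  classical
  induction p using WfDvdMonoid.induction_on_irreducible with
  | zero => exact fun h => absurd rfl h
  | unit u hu =>
    intro _ _ H _ j hj h
    refine bp_int.of_injective (SemidirectProduct.rightHom.comp j) ?_
    rw [injective_iff_map_eq_one]
    intro x hx
    have h1 := (Module.End.isUnit_iff _).mp (hu.map (aeval σ.val))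
    have h2 : (j x).left.toAdd = 0 := h1.1 ((h x hx).trans (map_zero _).symm)
    exact hj ((SemidirectProduct.ext h2 hx).trans (map_one j).symm)
  | mul a i ha hi ih =>
    intro _ hroot H _ j hj h
    have hQ : BP k ((Phi σ i).comp j).range := by
      refine ih ha (fun f hf hd => hroot f hf (hd.mul_left i)) _ (Subgroup.subtype _)
        (Subgroup.subtype_injective _) ?_
      rintro ⟨_, x, rfl⟩ hx
      have := h x hx
      rw [mul_comm, map_mul] at this
      exact this
    obtain ⟨lam, hlam⟩ := hroot i hi (dvd_mul_right i a)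
    refine BP.of_gen fun H' S hfg hS hex => ?_
    by_cases hc : ∃ x : H', (SemidirectProduct.rightHom.comp (j.comp H'.subtype)) x ≠ 1
    · obtain ⟨x, hx⟩ := hc
      obtain ⟨y, ⟨b, hb, hy⟩, hy1⟩ := exists_gen_ne hS _ x hx
      refine twisted_step (((Phi σ i).comp j).rangeRestrict.comp H'.subtype) hQ
        (SemidirectProduct.rightHom.comp (Subgroup.subtype _)) lam S b hb y hy hy1 ?_
      intro F hF
      have hk : ∀ x : H', (((Phi σ i).comp j).rangeRestrict.comp H'.subtype) x = 1 →
          (j x).right = 1 ∧ aeval σ.val i (j x).left.toAdd = 0 := fun x hx =>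
        ⟨congrArg (fun q => q.1.right) hx, congrArg (fun q => q.1.left) hx⟩
      obtain ⟨L, h1, h2, h3⟩ := exists_eigen σ i hi lam hlam
        (F.image fun x : H' => (j x).left.toAdd) (by
          intro v hv
          obtain ⟨x, hx, rfl⟩ := Finset.mem_image.mp hv
          refine ⟨(hk x (hF x hx).1).2, fun e => (hF x hx).2 (Subtype.ext (hj ?_))⟩
          exact (SemidirectProduct.ext e (hk x (hF x hx).1).1).trans (map_one j).symm)
      refine ⟨fun x => L (j x).left.toAdd, ?_, ?_, fun x hx => h3 _ (Finset.mem_image_of_mem _ hx)⟩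
      · intro x y hx hy
        simp only [Subgroup.coe_mul, map_mul]
        rw [left_mul_of σ _ _ (hk x hx).1, h1 _ _ (hk x hx).2 (hk y hy).2]
      · intro g x hx
        simp only [Subgroup.coe_mul, Subgroup.coe_inv, map_mul, map_inv]
        rw [left_conj σ _ _ (hk x hx).1, h2 _ _ (hk x hx).2]
        rfl
    · push Not at hc
      let ψ : H' →* Multiplicative V :=
        { toFun := fun x => (j x).left
          map_one' := by simp
          map_mul' := fun x y => by
            simp only [Subgroup.coe_mul, map_mul]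
            exact left_mul_of σ _ _ (hc x) }
      have hψ : Function.Injective ψ := fun x y e =>
        Subtype.ext (hj (SemidirectProduct.ext e ((hc x).trans (hc y).symm)))
      obtain ⟨b, hb, h⟩ := hex
      refine bp_comm (fun x y => hψ (by rw [map_mul, map_mul, mul_comm])) ?_ _ ⟨S, rfl⟩
        ⟨b, Algebra.subset_adjoin hb, h⟩
      intro x n hn hx
      have h1 : n • (ψ x).toAdd = 0 := by rw [← toAdd_pow, ← map_pow, hx, map_one, toAdd_one]
      rw [← Nat.cast_smul_eq_nsmul ℚ] at h1
      exact hψ (((smul_eq_zero.mp h1).resolve_left (Nat.cast_ne_zero.mpr hn)).trans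
        (map_one ψ).symm)

end Pool.Agent.Lib.BG7
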