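import Mathlib
import Pool.Agent.Lib.BG7.Suf
import Pool.Agent.Lib.BG7.Nec

set_option autoImplicit false

namespace Pool.Agent.Lib.BG7

open Polynomial

variable {k : Type} [Field k] [CharZero k] {n : ℕ}

theorem exists_ker (A : Matrix (Fin n) (Fin n) ℚ) (f : ℚ[X]) (hf : Irreducible f)
    (hd : f ∣ A.charpoly) : ∃ v : Fin n → ℚ, v ≠ 0 ∧ (aeval A f).mulVec v = 0 := by
  have : Fact (Irreducible f) := ⟨hf⟩
  rw [Matrix.exists_mulVec_eq_zero_iff]
  let L := AdjoinRoot f
  let α : L := AdjoinRoot.root f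
  let B : Matrix (Fin n) (Fin n) L := A.map (algebraMap ℚ L)
  have h0 : (f.map (algebraMap ℚ L)).IsRoot α := AdjoinRoot.isRoot_root f
  have h1 : B.charpoly.eval α = 0 := by
    rw [Matrix.charpoly_map]
    exact h0.dvd (Polynomial.map_dvd _ hd)
  rw [Matrix.eval_charpoly] at h1
  obtain ⟨g, hg⟩ := dvd_iff_isRoot.mpr h0
  have h2 : (aeval A f).map (algebraMap ℚ L) = aeval B (f.map (algebraMap ℚ L)) := by
    rw [aeval_map_algebraMap]
    exact (aeval_algHom_apply (Algebra.ofId ℚ L).mapMatrix A f).symm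
  have h3 : ((aeval A f).map (algebraMap ℚ L)).det = 0 := by
    rw [h2, hg, map_mul, Matrix.det_mul, map_sub, aeval_X, aeval_C, ← neg_sub, Matrix.det_neg]
    have e : algebraMap L (Matrix (Fin n) (Fin n) L) α = Matrix.scalar (Fin n) α := rfl
    rw [e, h1, mul_zero, zero_mul]
  apply (algebraMap ℚ L).injective
  rw [RingHom.map_det, map_zero]
  exact h3

theorem exists_multiple (K : AddSubgroup (Fin n → ℚ)) (v : Fin n → ℚ)
    (hv : v ∈ Submodule.span ℚ (K : Set (Fin n → ℚ))) : ∃ m : ℕ, m ≠ 0 ∧ m • v ∈ K := by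
  induction hv using Submodule.span_induction with
  | mem x hx => exact ⟨1, one_ne_zero, by rwa [one_smul]⟩
  | zero => exact ⟨1, one_ne_zero, by simp⟩
  | add x y _ _ hx hy =>
    obtain ⟨a, ha, hx⟩ := hx
    obtain ⟨b, hb, hy⟩ := hy
    refine ⟨a * b, mul_ne_zero ha hb, ?_⟩
    rw [smul_add]
    refine K.add_mem ?_ ?_
    · rw [mul_comm, mul_smul]; exact K.nsmul_mem hx b
    · rw [mul_smul]; exact K.nsmul_mem hy a
  | smul c x _ hx =>
    obtain ⟨a, ha, hx⟩ := hx
    refine ⟨c.den * a, mul_ne_zero c.den_nz ha, ?_⟩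
    have e : (c.den * a) • c • x = c.num • a • x := by
      rw [← Nat.cast_smul_eq_nsmul ℚ, ← Nat.cast_smul_eq_nsmul ℚ a, ← Int.cast_smul_eq_zsmul ℚ,
        smul_smul, smul_smul]
      congr 1
      rw [Nat.cast_mul, mul_right_comm, mul_comm (c.den : ℚ), Rat.mul_den_eq_num]
    rw [e]
    exact K.zsmul_mem hx _

theorem nec (A : Matrix (Fin n) (Fin n) ℚ) (K : Type) [AddCommGroup K] (ι : K →+ (Fin n → ℚ))
    (hι : Function.Injective ι) (hK : Submodule.span ℚ (Set.range ι) = ⊤)
    (φ : Multiplicative ℤ →* MulAut (Multiplicative K))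
    (hφ : ∀ v : K, ι (φ (.ofAdd 1) (.ofAdd v)).toAdd = A.mulVec (ι v))
    (hB : BP k (Multiplicative K ⋊[φ] Multiplicative ℤ)) (f : ℚ[X]) (hf : Irreducible f)
    (hd : f ∣ A.charpoly) : ∃ x : k, aeval x f = 0 := by
  by_contra hc
  push Not at hc
  obtain ⟨v, hv0, hv⟩ := exists_ker A f hf hd
  obtain ⟨m, hm, x0, hmv⟩ := exists_multiple ι.range v (by
    rw [AddMonoidHom.coe_range, hK]; exact Submodule.mem_top)
  let x : ℕ → K := fun i => Nat.rec x0 (fun _ y => (φ (.ofAdd 1) (.ofAdd y)).toAdd) i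
  have hx : ∀ i, ι (x i) = (A ^ i).mulVec (m • v) := by
    intro i
    induction i with
    | zero => simp [x, hmv]
    | succ i ih => rw [pow_succ', ← Matrix.mulVec_mulVec, ← ih]; exact hφ (x i)
  obtain ⟨b, hb, hF⟩ := IsLocalization.integerNormalization_spec (nonZeroDivisors ℤ) f
  have hb0 : b ≠ 0 := nonZeroDivisors.ne_zero hb
  set F := IsLocalization.integerNormalization (nonZeroDivisors ℤ) f
  have ha : ∀ i, ((F.coeff i : ℤ) : ℚ) = b * f.coeff i := fun i => by
    have := congrArg (Polynomial.coeff · i) hF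
    simpa using this
  refine not_bp (k := k) SemidirectProduct.inl (SemidirectProduct.inr (.ofAdd 1)) x ?_ ?_
    F.coeff f.natDegree hf.natDegree_pos ?_ ?_ ?_ hB
  · intro i
    have := SemidirectProduct.inl_aut (φ := φ) (.ofAdd 1) (.ofAdd (x i))
    rw [map_inv, eq_mul_inv_iff_mul_eq] at this
    exact this.symm
  · intro h
    have h1 : Multiplicative.ofAdd (x 0) = 1 :=
      SemidirectProduct.inl_injective (h.trans (map_one _).symm)
    have h2 : m • v = 0 := hmv.symm.trans
      ((congrArg (fun z : Multiplicative K => ι z.toAdd) h1).trans (map_zero ι))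
    rw [← Nat.cast_smul_eq_nsmul ℚ] at h2
    exact hv0 ((smul_eq_zero.mp h2).resolve_left (Nat.cast_ne_zero.mpr hm))
  · intro h
    have h1 := ha f.natDegree
    rw [h, Int.cast_zero] at h1
    exact mul_ne_zero (Int.cast_ne_zero.mpr hb0) (leadingCoeff_ne_zero.mpr hf.ne_zero) h1.symm
  · intro c h
    refine mul_ne_zero (Int.cast_ne_zero.mpr hb0 : (b : k) ≠ 0) (hc c) ?_
    rw [aeval_eq_sum_range, Finset.mul_sum, ← h]
    refine Finset.sum_congr rfl fun i _ => ?_
    rw [← map_intCast (algebraMap ℚ k) (F.coeff i), ha, map_mul, map_intCast, Algebra.smul_def,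
      mul_assoc]
  · apply hι
    have h1 : (aeval A f).mulVec (m • v) = 0 := by rw [Matrix.mulVec_smul, hv, smul_zero]
    rw [aeval_eq_sum_range, Matrix.sum_mulVec] at h1
    rw [map_sum, map_zero, ← smul_zero (b : ℚ), ← h1,
      Finset.smul_sum]
    refine Finset.sum_congr rfl fun i _ => ?_
    rw [map_zsmul, hx, ← Int.cast_smul_eq_zsmul ℚ, ha, mul_smul,
      Matrix.smul_mulVec]

theorem suf (A : Matrix (Fin n) (Fin n) ℚ) (K : Type) [AddCommGroup K] (ι : K →+ (Fin n → ℚ))
    (hι : Function.Injective ι) (hK : Submodule.span ℚ (Set.range ι) = ⊤)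
    (φ : Multiplicative ℤ →* MulAut (Multiplicative K))
    (hφ : ∀ v : K, ι (φ (.ofAdd 1) (.ofAdd v)).toAdd = A.mulVec (ι v))
    (h : ∀ f : ℚ[X], Irreducible f → f ∣ A.charpoly → ∃ x : k, aeval x f = 0) :
    BP k (Multiplicative K ⋊[φ] Multiplicative ℤ) := by
  have hs : Function.Surjective (Matrix.toLin' A) := by
    rw [← LinearMap.range_eq_top, eq_top_iff, ← hK, Submodule.span_le]
    rintro _ ⟨v, rfl⟩
    obtain ⟨w, hw⟩ := (φ (.ofAdd 1)).surjective (.ofAdd v)
    refine ⟨ι w.toAdd, ?_⟩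
    rw [Matrix.toLin'_apply, ← hφ]
    exact congrArg (fun z : Multiplicative K => ι z.toAdd) hw
  have hu : IsUnit (Matrix.toLin' A : Module.End ℚ (Fin n → ℚ)) :=
    (Module.End.isUnit_iff _).mpr ⟨LinearMap.injective_iff_surjective.mpr hs, hs⟩
  let σ := hu.unit
  have hσ : ∀ v, σ.val v = A.mulVec v := fun v => rfl
  have hdet : A.det ≠ 0 := by
    rw [Ne, ← Matrix.exists_mulVec_eq_zero_iff]
    rintro ⟨v, hv, h0⟩
    exact hv (LinearMap.injective_iff_surjective.mpr hs ((hσ v).trans (h0.trans (map_zero _).symm)))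
  have hcomp : ∀ (e : ℤ) (v : Multiplicative K),
      ι (φ (.ofAdd e) v).toAdd = (σ ^ e).val (ι v.toAdd) := by
    intro e
    induction e using Int.induction_on with
    | zero => intro v; simp
    | succ m ih =>
      intro v
      rw [ofAdd_add, map_mul, MulAut.mul_apply, ih, zpow_add, zpow_one, Units.val_mul,
        Module.End.mul_apply, hσ]
      exact congrArg _ (hφ v.toAdd)
    | pred m ih =>
      intro v
      obtain ⟨w, rfl⟩ := (φ (.ofAdd 1)).surjective v
      have e1 : ι (φ (.ofAdd 1) w).toAdd = σ.val (ι w.toAdd) := hφ w.toAdd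
      rw [← MulAut.mul_apply, ← map_mul, ← ofAdd_add, sub_add_cancel, ih, e1,
        ← Module.End.mul_apply, ← Units.val_mul, ← zpow_add_one, sub_add_cancel]
  refine bp_semi σ A.charpoly A.charpoly_monic.ne_zero ?_ _
    (SemidirectProduct.map (AddMonoidHom.toMultiplicative ι) (MonoidHom.id _)
      fun e => MonoidHom.ext fun v => hcomp e.toAdd v) ?_ ?_
  · intro f hf hd
    obtain ⟨x, hx⟩ := h f hf hd
    refine ⟨Units.mk0 x ?_, hx⟩
    rintro rfl
    rw [← coeff_zero_eq_aeval_zero', map_eq_zero] at hx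
    obtain ⟨g, hg⟩ := hd
    apply hdet
    rw [Matrix.det_eq_sign_charpoly_coeff, hg, mul_coeff_zero, hx, zero_mul, mul_zero]
  · intro x y e
    have e1 := congrArg SemidirectProduct.left e
    have e2 := congrArg SemidirectProduct.right e
    exact SemidirectProduct.ext (hι e1) e2
  · intro g _
    have h1 : aeval σ.val A.charpoly = 0 := by
      have := aeval_algHom_apply (Matrix.toLinAlgEquiv' (R := ℚ) (n := Fin n)) A A.charpoly
      rw [Matrix.aeval_self_charpoly, map_zero] at this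
      exact this
    rw [h1]
    rfl

omit [CharZero k] in
theorem bp_iff {G : Type} [Group G] : BP k G ↔ ∀ R : Subalgebra k (MonoidAlgebra k G), R.FG →
    (∃ r ∈ R, ∀ c : k, r ≠ algebraMap k (MonoidAlgebra k G) c) →
    ∃ (f : R →ₐ[k] LaurentPolynomial k) (r : R), ∀ c : k, f r ≠ LaurentPolynomial.C c := by
  classical
  have key : ∀ r : MonoidAlgebra k G, (∃ g, g ≠ 1 ∧ r.coeff g ≠ 0) ↔
      ∀ c : k, r ≠ algebraMap k (MonoidAlgebra k G) c := by
    intro r
    constructor
    · rintro ⟨g, hg, h⟩ c rfl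
      exact h (Finsupp.single_eq_of_ne hg)
    · intro hc
      by_contra h
      push Not at h
      apply hc (r.coeff 1)
      apply MonoidAlgebra.coeff_injective
      ext x
      change r.coeff x = (Finsupp.single (1 : G) (r.coeff 1)) x
      rw [Finsupp.single_apply]
      split_ifs with h2
      · rw [h2]
      · exact h x (Ne.symm h2)
  simp only [BP, NC, key]

end Pool.Agent.Lib.BG7
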